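import Pool.Agent.Lib.MP_8cb124_co.Whit

open Finset

namespace Pool.Agent.Lib.MP_8cb124_co

section mob
variable {α R : Type} [DecidableEq α] [CommRing R]

/-- Moebius transform on the subset lattice -/
def mob (f : Finset α → R) (A : Finset α) : R :=
  ∑ B ∈ A.powerset, (-1) ^ (A.card + B.card) * f B

omit [DecidableEq α] in
lemma mob_empty (f : Finset α → R) : mob f ∅ = f ∅ := by simp [mob]

lemma mob_insert (f : Finset α → R) {a : α} {A : Finset α} (ha : a ∉ A) :
    mob f (insert a A) = mob (fun B => f (insert a B) - f B) A := by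
  rw [mob, sum_powerset_insert ha, mob, ← sum_add_distrib]
  refine sum_congr rfl fun B hB => ?_
  rw [card_insert_of_notMem ha, card_insert_of_notMem fun h => ha (mem_powerset.mp hB h)]
  ring

omit [DecidableEq α] in
lemma mob_congr {f g : Finset α → R} {A : Finset α} (h : ∀ B ⊆ A, f B = g B) :
    mob f A = mob g A := sum_congr rfl fun B hB => by rw [h B (mem_powerset.mp hB)]

omit [DecidableEq α] in
lemma mob_add (f g : Finset α → R) (A : Finset α) :
    mob (fun B => f B + g B) A = mob f A + mob g A := by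
  simp only [mob, mul_add, sum_add_distrib]

omit [DecidableEq α] in
lemma mob_sub (f g : Finset α → R) (A : Finset α) :
    mob (fun B => f B - g B) A = mob f A - mob g A := by
  simp only [mob, mul_sub, sum_sub_distrib]

omit [DecidableEq α] in
lemma mob_mul_const (f : Finset α → R) (c : R) (A : Finset α) :
    mob (fun B => f B * c) A = mob f A * c := by
  simp only [mob, sum_mul, mul_assoc]

lemma mob_inv (A : Finset α) : ∀ f : Finset α → R, ∑ B ∈ A.powerset, mob f B = f A := by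
  induction A using Finset.induction_on with
  | empty => intro f; simp [mob]
  | insert a A ha ih =>
    intro f
    rw [sum_powerset_insert ha, ih, sum_congr rfl fun B hB =>
      mob_insert f fun h => ha (mem_powerset.mp hB h), ih]
    ring

lemma mob_uniq (A : Finset α) : ∀ f g : Finset α → R,
    (∀ B ⊆ A, f B = ∑ C ∈ B.powerset, g C) → mob f A = g A := by
  induction A using Finset.induction_on with
  | empty => intro f g h; simp [mob, h ∅]
  | insert a A ha ih =>
    intro f g h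
    rw [mob_insert f ha]
    refine ih _ (fun C => g (insert a C)) fun B hB => ?_
    rw [h _ (insert_subset_insert a hB), h B (hB.trans (subset_insert a A)),
      sum_powerset_insert fun h => ha (hB h)]
    ring

lemma mob_vanish {f : Finset α → R} {A : Finset α} {a : α} (ha : a ∈ A)
    (h : ∀ B ⊆ A, f (insert a B) = f B) : mob f A = 0 := by
  rw [← insert_erase ha, mob_insert f (notMem_erase a A), mob]
  refine sum_eq_zero fun B hB => ?_
  rw [h B ((mem_powerset.mp hB).trans (erase_subset a A)), sub_self, mul_zero]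

lemma mob_supp {ι : Type} (I : Finset ι) (w : ι → R) (sp : ι → Finset α) (T : Finset α) :
    mob (fun S => ∑ i ∈ I.filter (fun i => sp i ⊆ S), w i) T =
      ∑ i ∈ I.filter (fun i => sp i = T), w i := by
  refine mob_uniq T _ (fun T => ∑ i ∈ I.filter (fun i => sp i = T), w i) fun B _ => ?_
  rw [← sum_fiberwise_of_maps_to (s := I.filter fun i => sp i ⊆ B) (t := B.powerset) (g := sp)
    fun i hi => mem_powerset.mpr (mem_filter.mp hi).2]
  refine sum_congr rfl fun C hC => sum_congr ?_ fun _ _ => rfl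
  ext i
  simp only [mem_filter]
  exact ⟨fun h => ⟨h.1.1, h.2⟩, fun h => ⟨⟨h.1, h.2 ▸ mem_powerset.mp hC⟩, h.2⟩⟩

lemma mob_mul (f g : Finset α → R) (A : Finset α) : mob (fun B => f B * g B) A =
    ∑ p ∈ (A.powerset ×ˢ A.powerset).filter (fun p => p.1 ∪ p.2 = A), mob f p.1 * mob g p.2 := by
  rw [← mob_supp (A.powerset ×ˢ A.powerset) (fun p => mob f p.1 * mob g p.2) fun p => p.1 ∪ p.2]
  refine mob_congr fun B hB => ?_
  rw [← mob_inv B f, ← mob_inv B g, sum_mul_sum, ← sum_product']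
  refine sum_congr ?_ fun _ _ => rfl
  ext p
  simp only [mem_filter, mem_product, mem_powerset, union_subset_iff]
  exact ⟨fun h => ⟨⟨h.1.trans hB, h.2.trans hB⟩, h⟩, fun h => h.2⟩

omit [DecidableEq α] in
lemma mob_top {f : Finset α → R} {A : Finset α} (h : ∀ B ⊆ A, B ≠ A → f B = 0) :
    mob f A = f A := by
  rw [mob, sum_eq_single A]
  · rw [← two_mul, pow_mul]; simp
  · intro B hB hne; rw [h B (mem_powerset.mp hB) hne, mul_zero]
  · simp

end mob

open PowerSeries

/-- Euler operator -/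
noncomputable def th (f : ℚ⟦X⟧) : ℚ⟦X⟧ := X * PowerSeries.derivative ℚ f

/-- logarithmic derivative -/
noncomputable def LD (f : ℚ⟦X⟧) : ℚ⟦X⟧ := th f * f⁻¹

lemma th_mul (f g : ℚ⟦X⟧) : th (f * g) = f * th g + g * th f := by
  simp only [th, Derivation.leibniz, smul_eq_mul]; ring

lemma th_add (f g : ℚ⟦X⟧) : th (f + g) = th f + th g := by
  simp only [th, map_add, mul_add]

lemma th_X_pow (r : ℕ) : th (X ^ r) = (r : ℚ⟦X⟧) * X ^ r := by
  induction r with
  | zero => simp [th]
  | succ r ih =>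
    have : th (X : ℚ⟦X⟧) = X := by simp [th]
    rw [pow_succ, th_mul, ih, this]; push_cast; ring

lemma th_neg_one_pow (r : ℕ) : th ((-1) ^ r) = 0 := by
  rcases neg_one_pow_eq_or ℚ⟦X⟧ r with h | h <;> simp [h, th]

lemma LD_mul {f g : ℚ⟦X⟧} (hf : constantCoeff f ≠ 0) (hg : constantCoeff g ≠ 0) :
    LD (f * g) = LD f + LD g := by
  have h1 := PowerSeries.mul_inv_cancel f hf
  have h2 := PowerSeries.mul_inv_cancel g hg
  rw [LD, LD, LD, th_mul, PowerSeries.mul_inv_rev]
  linear_combination (th g * g⁻¹) * h1 + (th f * f⁻¹) * h2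

lemma LD_one : LD 1 = 0 := by simp [LD, th]

variable {V : Type} [Fintype V] [DecidableEq V]

/-- graded set functions -/
def Gr (F : Finset (V × V)) (f : Finset (V × V) → ℚ⟦X⟧) : Prop :=
  ∀ A ⊆ F, X ^ rk A ∣ mob f A

lemma Gr.mul {F : Finset (V × V)} {f g : Finset (V × V) → ℚ⟦X⟧} (hf : Gr F f) (hg : Gr F g) :
    Gr F fun B => f B * g B := fun A hA => by
  rw [mob_mul]
  refine dvd_sum fun p hp => ?_
  simp only [mem_filter, mem_product, mem_powerset] at hp
  have h1 := mul_dvd_mul (hf _ (hp.1.1.trans hA)) (hg _ (hp.1.2.trans hA))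
  rw [← pow_add] at h1
  refine dvd_trans (pow_dvd_pow _ ?_) h1
  rw [← hp.2]; exact rk_union_le _ _

omit [DecidableEq V] in
lemma Gr.add {F : Finset (V × V)} {f g : Finset (V × V) → ℚ⟦X⟧} (hf : Gr F f) (hg : Gr F g) :
    Gr F fun B => f B + g B := fun A hA => by
  rw [mob_add]; exact dvd_add (hf A hA) (hg A hA)

omit [DecidableEq V] in
lemma Gr.sub {F : Finset (V × V)} {f g : Finset (V × V) → ℚ⟦X⟧} (hf : Gr F f) (hg : Gr F g) :
    Gr F fun B => f B - g B := fun A hA => by
  rw [mob_sub]; exact dvd_sub (hf A hA) (hg A hA)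

lemma Gr.const (F : Finset (V × V)) (c : ℚ⟦X⟧) : Gr F fun _ => c := fun A _ => by
  rcases A.eq_empty_or_nonempty with rfl | ⟨a, ha⟩
  · simp [rk_empty]
  · rw [mob_vanish ha fun _ _ => rfl]; exact dvd_zero _

lemma Gr.pow {F : Finset (V × V)} {f : Finset (V × V) → ℚ⟦X⟧} (hf : Gr F f) (j : ℕ) :
    Gr F fun B => f B ^ j := by
  induction j with
  | zero => simpa using Gr.const F 1
  | succ j ih => simpa [pow_succ] using ih.mul hf

lemma Gr.geom {F : Finset (V × V)} {f : Finset (V × V) → ℚ⟦X⟧} (hf : Gr F f) (K : ℕ) :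
    Gr F fun B => ∑ j ∈ range K, f B ^ j := by
  induction K with
  | zero => simpa using Gr.const F 0
  | succ K ih => simpa [sum_range_succ] using ih.add (hf.pow K)

lemma Gr.inv {F : Finset (V × V)} {f : Finset (V × V) → ℚ⟦X⟧} (hf : Gr F f)
    (h1 : ∀ B ⊆ F, constantCoeff (f B) = 1) : Gr F fun B => (f B)⁻¹ := fun A hA => by
  have h2 : ∀ B ⊆ A, (f B)⁻¹ = ∑ j ∈ range (rk A), (1 - f B) ^ j + (1 - f B) ^ rk A * (f B)⁻¹ := by
    intro B hB
    have h3 := PowerSeries.mul_inv_cancel (f B) (by rw [h1 B (hB.trans hA)]; exact one_ne_zero)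
    have h4 := mul_neg_geom_sum (1 - f B) (rk A)
    linear_combination (-(f B)⁻¹) * h4 + (∑ j ∈ range (rk A), (1 - f B) ^ j) * h3
  rw [mob_congr h2, mob_add]
  refine dvd_add (((Gr.const F 1).sub hf).geom _ A hA) (dvd_sum fun B hB => ?_)
  refine Dvd.dvd.mul_left (Dvd.dvd.mul_right (pow_dvd_pow_of_dvd ?_ _) _) _
  rw [X_dvd_iff, map_sub, h1 B ((mem_powerset.mp hB).trans hA), map_one, sub_self]

/-- power series version -/
noncomputable def ZS (F : Finset (V × V)) : ℚ⟦X⟧ := (Zp F : ℚ⟦X⟧)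

omit [DecidableEq V] in
lemma ZS_eq (F : Finset (V × V)) : ZS F = ∑ A ∈ F.powerset, (-1) ^ A.card * X ^ rk A := by
  rw [ZS, Zp, ← Polynomial.coeToPowerSeries.ringHom_apply, map_sum]
  simp

lemma ZS_const {F : Finset (V × V)} (hF : ∀ e ∈ F, e.1 ≠ e.2) : constantCoeff (ZS F) = 1 := by
  rw [ZS, Polynomial.constantCoeff_coe, Zp_coeff_zero hF]

lemma Gr_LD {F : Finset (V × V)} (hF : ∀ e ∈ F, e.1 ≠ e.2) : Gr F fun B => LD (ZS B) := by
  refine Gr.mul (fun A _ => ?_) (Gr.inv (fun A _ => ?_) fun B hB => ZS_const fun e he => hF e (hB he))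
  · rw [mob_uniq A _ (fun C => (-1) ^ C.card * ((rk C : ℚ⟦X⟧) * X ^ rk C)) fun B _ => ?_]
    · exact Dvd.dvd.mul_left (Dvd.intro_left _ rfl) _
    · rw [ZS_eq, th, map_sum, mul_sum]
      refine sum_congr rfl fun C _ => ?_
      rw [← th, th_mul, th_X_pow, th_neg_one_pow, mul_zero, add_zero]
  · rw [mob_uniq A _ (fun C => (-1) ^ C.card * X ^ rk C) fun B _ => ZS_eq B]
    exact Dvd.intro_left _ rfl

/-- vertices covered -/
def supp (A : Finset (V × V)) : Finset V := A.image Prod.fst ∪ A.image Prod.snd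

lemma dvd_mob_edge {A : Finset (V × V)} (hA : ∀ e ∈ A, e.1 ≠ e.2) :
    X ^ ((supp A).card - 1) ∣ mob (fun B => LD (ZS B)) A := by
  by_cases h : ∀ f ∈ Uc A, ∀ a ∈ supp A, ∀ b ∈ supp A, f a = f b
  · exact (pow_dvd_pow _ (rk_ge h)).trans (Gr_LD hA A subset_rfl)
  push Not at h
  obtain ⟨f, hf, a, ha, b, hb, hab⟩ := h
  have h1 : ∀ a ∈ supp A, ∃ e ∈ A, f e.1 = f a := by
    intro a ha
    simp only [supp, mem_union, mem_image] at ha
    rcases ha with ⟨e, he, rfl⟩ | ⟨e, he, rfl⟩
    exacts [⟨e, he, rfl⟩, ⟨e, he, hf e he⟩]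
  obtain ⟨e, he, hea⟩ := h1 a ha
  obtain ⟨e', he', heb⟩ := h1 b hb
  have h2 : ∀ B ⊆ A, LD (ZS B) = LD (ZS (B.filter fun e => f e.1 = f a)) +
      LD (ZS (B.filter fun e => ¬ f e.1 = f a)) := by
    intro B hB
    rw [← LD_mul, ZS, ZS, ZS, ← Polynomial.coe_mul, ← Zp_union (fun v => f v = f a),
      filter_union_filter_not_eq]
    · intro e he
      rw [mem_filter] at he
      exact ⟨he.2, (hf e (hB he.1)).symm.trans he.2⟩
    · intro e he
      rw [mem_filter] at he
      exact ⟨he.2, fun h => he.2 ((hf e (hB he.1)).trans h)⟩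
    · rw [ZS_const fun e he => hA e (hB (mem_filter.mp he).1)]; exact one_ne_zero
    · rw [ZS_const fun e he => hA e (hB (mem_filter.mp he).1)]; exact one_ne_zero
  rw [mob_congr h2, mob_add, mob_vanish he', mob_vanish he, add_zero]
  · exact dvd_zero _
  · intro B _; rw [filter_insert, if_neg (not_not.mpr hea)]
  · intro B _; rw [filter_insert, if_neg fun h => hab (h.symm.trans heb)]

variable (G : SimpleGraph V) [DecidableRel G.Adj]

/-- ordered edges inside S -/
def EE (S : Finset V) : Finset (V × V) := (S ×ˢ S).filter fun e => G.Adj e.1 e.2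

omit [Fintype V] [DecidableEq V] in
lemma mem_EE {S : Finset V} {e : V × V} : e ∈ EE G S ↔ e.1 ∈ S ∧ e.2 ∈ S ∧ G.Adj e.1 e.2 := by
  simp [EE, and_assoc]

/-- log derivative of the induced subgraph -/
noncomputable def LL (S : Finset V) : ℚ⟦X⟧ := LD (ZS (EE G S))

lemma dvd_mob_LL (S : Finset V) : X ^ (S.card - 1) ∣ mob (LL G) S := by
  have h1 : LL G = fun S => ∑ A ∈ (EE G univ).powerset.filter (fun A => supp A ⊆ S),
      mob (fun B => LD (ZS B)) A := by
    funext S
    rw [LL, ← mob_inv (EE G S) fun B => LD (ZS B)]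
    refine sum_congr ?_ fun _ _ => rfl
    ext A
    simp only [mem_filter, mem_powerset, supp, union_subset_iff, image_subset_iff]
    constructor
    · intro h
      exact ⟨fun e he => (mem_EE G).mpr ⟨mem_univ _, mem_univ _, ((mem_EE G).mp (h he)).2.2⟩,
        fun e he => ((mem_EE G).mp (h he)).1, fun e he => ((mem_EE G).mp (h he)).2.1⟩
    · intro h e he
      exact (mem_EE G).mpr ⟨h.2.1 e he, h.2.2 e he, ((mem_EE G).mp (h.1 he)).2.2⟩
  rw [h1, mob_supp]
  refine dvd_sum fun A hA => ?_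
  simp only [mem_filter, mem_powerset] at hA
  rw [← hA.2]
  exact dvd_mob_edge fun e he => ((mem_EE G).mp (hA.1 he)).2.2.ne

end Pool.Agent.Lib.MP_8cb124_co
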