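import Pool.Agent.Lib.MP_8cb124_co.Sq

open Finset Module

namespace Pool.Agent.Lib.MP_8cb124_co

variable {V : Type} [Fintype V] [DecidableEq V] {G : SimpleGraph V} [DecidableRel G.Adj]

omit [Fintype V] [DecidableEq V] in
lemma card_E {r : V → ℕ} (hr : Function.Injective r) (S : Finset V) :
    2 * ((S ×ˢ S).filter fun p => G.Adj p.1 p.2 ∧ r p.1 < r p.2).card = m2 G S := by
  rw [card_filter, sum_product, two_mul]
  nth_rewrite 1 [sum_comm]
  rw [← sum_add_distrib, m2]
  refine sum_congr rfl fun a _ => ?_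
  rw [← sum_add_distrib]
  refine sum_congr rfl fun b _ => ?_
  by_cases h : G.Adj a b
  · have : r a ≠ r b := fun h1 => h.ne (hr h1)
    simp only [h, h.symm, true_and, if_true]
    split_ifs <;> omega
  · have : ¬ G.Adj b a := fun h1 => h h1.symm
    simp [h, this]

omit [Fintype V] [DecidableEq V] in
lemma card_T (r : V → ℕ) (S : Finset V) :
    6 * ((S ×ˢ S ×ˢ S).filter fun p => (G.Adj p.1 p.2.1 ∧ G.Adj p.1 p.2.2 ∧ G.Adj p.2.1 p.2.2) ∧
      r p.1 < r p.2.1 ∧ r p.2.1 < r p.2.2).card ≤ t6 G S := by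
  let I : V → V → V → ℕ := fun a b c =>
    if (G.Adj a b ∧ G.Adj a c ∧ G.Adj b c) ∧ r a < r b ∧ r b < r c then 1 else 0
  let s : (V → V → V → ℕ) → ℕ := fun I => ∑ a ∈ S, ∑ b ∈ S, ∑ c ∈ S, I a b c
  have s1 : ∀ I, s (fun a b c => I b a c) = s I := fun I => sum_comm
  have s2 : ∀ I, s (fun a b c => I a c b) = s I := fun I => sum_congr rfl fun _ _ => sum_comm
  have h1 : ((S ×ˢ S ×ˢ S).filter fun p => (G.Adj p.1 p.2.1 ∧ G.Adj p.1 p.2.2 ∧ G.Adj p.2.1 p.2.2) ∧
      r p.1 < r p.2.1 ∧ r p.2.1 < r p.2.2).card = s I := by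
    simp only [card_filter, sum_product, s, I]
  have h2 : s I + s (fun a b c => I b a c) + s (fun a b c => I a c b) + s (fun a b c => I b c a) +
      s (fun a b c => I c a b) + s (fun a b c => I c b a) ≤ t6 G S := by
    simp only [s, ← sum_add_distrib, t6]
    refine sum_le_sum fun a _ => sum_le_sum fun b _ => sum_le_sum fun c _ => ?_
    simp only [I, G.adj_comm b a, G.adj_comm c a, G.adj_comm c b]
    by_cases h1 : G.Adj a b <;> by_cases h2 : G.Adj a c <;> by_cases h3 : G.Adj b c <;>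
      simp only [h1, h2, h3, and_self, true_and, false_and, and_false, if_false, if_true, le_refl]
    split_ifs <;> omega
  have h3 : s (fun a b c => I b c a) = s I := (s1 fun a b c => I a c b).trans (s2 I)
  have h4 : s (fun a b c => I c a b) = s I := (s2 fun a b c => I b a c).trans (s1 I)
  have h5 : s (fun a b c => I c b a) = s I := (s1 fun a b c => I c a b).trans h4
  rw [s1 I, s2 I, h3, h4, h5] at h2
  omega

lemma exists_coc {S : Finset V} (hS : S.Nonempty) (h1 : m2 G S = 4 * S.card)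
    (h2 : t6 G S = 6 * S.card) : ∃ ω, Coc G S ω ∧
      ∀ f : V → ZMod 2, ¬ ∀ a ∈ S, ∀ b ∈ S, G.Adj a b → ω a b = f a + f b := by
  obtain ⟨r, hr⟩ := exists_injective_nat V
  have e1 := card_E (G := G) hr S
  have e2 := card_T (G := G) r S
  set E := (S ×ˢ S).filter fun p => G.Adj p.1 p.2 ∧ r p.1 < r p.2 with hE
  set T := (S ×ˢ S ×ˢ S).filter fun p => (G.Adj p.1 p.2.1 ∧ G.Adj p.1 p.2.2 ∧ G.Adj p.2.1 p.2.2) ∧
      r p.1 < r p.2.1 ∧ r p.2.1 < r p.2.2 with hT
  let Φ : (V × V → ZMod 2) →ₗ[ZMod 2] ({p // p ∉ E} → ZMod 2) × (T → ZMod 2) :=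
    { toFun := fun g => (fun p => g p.1, fun t => g (t.1.1, t.1.2.1) + g (t.1.2.1, t.1.2.2) +
        g (t.1.1, t.1.2.2))
      map_add' := fun g g' => by ext <;> simp; ring
      map_smul' := fun c g => by ext <;> simp; ring }
  let δ : (V → ZMod 2) →ₗ[ZMod 2] (V × V → ZMod 2) :=
    { toFun := fun f p => if p ∈ E then f p.1 + f p.2 else 0
      map_add' := fun f f' => by ext p; simp only [Pi.add_apply]; split_ifs <;> ring
      map_smul' := fun c f => by ext p; simp [mul_add] }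
  have d1 := LinearMap.finrank_range_add_finrank_ker Φ
  have d2 := Submodule.finrank_le (LinearMap.range Φ)
  have d3 := LinearMap.finrank_range_add_finrank_ker δ
  have d4 : cc (S ×ˢ S) ≤ finrank (ZMod 2) (LinearMap.ker δ) := Submodule.finrank_mono fun f hf => by
    ext p
    simp only [δ, LinearMap.coe_mk, AddHom.coe_mk, Pi.zero_apply]
    split_ifs with h
    · rw [hf p (mem_filter.mp h).1, CharTwo.add_self_eq_zero]
    · rfl
  have d5 := cc_prod hS
  have d6 := card_le_univ E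
  rw [finrank_prod, finrank_fintype_fun_eq_card, finrank_fintype_fun_eq_card,
    Fintype.card_subtype_compl, Fintype.card_coe, Fintype.card_coe] at d2
  rw [finrank_fintype_fun_eq_card] at d1 d3
  have d7 : ¬ LinearMap.ker Φ ≤ LinearMap.range δ := fun h => by
    have := Submodule.finrank_mono h
    omega
  obtain ⟨g, hg, hg'⟩ := SetLike.not_le_iff_exists.mp d7
  have g1 : ∀ p ∉ E, g p = 0 := fun p hp => congrFun (congrArg Prod.fst hg) ⟨p, hp⟩
  have g2 : ∀ a b, r a < r b → g (b, a) = 0 := fun a b h => g1 _ fun h1 => by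
    have := (mem_filter.mp h1).2.2; simp only at this; omega
  have g3 : ∀ a ∈ S, ∀ b ∈ S, ∀ c ∈ S, G.Adj a b → G.Adj a c → G.Adj b c → r a < r b → r b < r c →
      (g (a, b) + g (b, a)) + (g (b, c) + g (c, b)) + (g (a, c) + g (c, a)) = 0 := by
    intro a ha b hb c hc h1 h2 h3 h4 h5
    have : g (a, b) + g (b, c) + g (a, c) = 0 := congrFun (congrArg Prod.snd hg)
      ⟨(a, b, c), mem_filter.mpr ⟨by simp [ha, hb, hc], ⟨h1, h2, h3⟩, h4, h5⟩⟩
    rw [g2 a b h4, g2 b c h5, g2 a c (h4.trans h5)]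
    simpa using this
  refine ⟨fun a b => g (a, b) + g (b, a), ⟨fun a b => add_comm _ _, ?_⟩, fun f hf => hg' ⟨f, ?_⟩⟩
  · intro a ha b hb c hc hab hbc hac
    have n1 : r a ≠ r b := fun h => hab.ne (hr h)
    have n2 : r b ≠ r c := fun h => hbc.ne (hr h)
    have n3 : r a ≠ r c := fun h => hac.ne (hr h)
    have two : (2 : ZMod 2) = 0 := rfl
    have key : (g (a, b) + g (b, a)) + (g (b, c) + g (c, b)) + (g (a, c) + g (c, a)) = 0 := by
      rcases lt_or_gt_of_ne n1 with l1 | l1 <;> rcases lt_or_gt_of_ne n2 with l2 | l2 <;>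
        rcases lt_or_gt_of_ne n3 with l3 | l3
      · exact g3 a ha b hb c hc hab hac hbc l1 l2
      · omega
      · linear_combination g3 a ha c hc b hb hac hab hbc.symm l3 l2
      · linear_combination g3 c hc a ha b hb hac.symm hbc.symm hab l3 l1
      · linear_combination g3 b hb a ha c hc hab.symm hbc hac l1 l3
      · linear_combination g3 b hb c hc a ha hbc hab.symm hac.symm l2 l3
      · omega
      · linear_combination g3 c hc b hb a ha hbc.symm hac.symm hab.symm l2 l1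
    linear_combination key - (g (a, b) + g (b, a) + (g (b, c) + g (c, b))) * two
  · ext ⟨a, b⟩
    simp only [δ, LinearMap.coe_mk, AddHom.coe_mk]
    split_ifs with h
    · obtain ⟨h3, h4, h5⟩ := mem_filter.mp h
      rw [mem_product] at h3
      have := hf a h3.1 b h3.2 h4
      simp only [g2 a b h5, add_zero] at this
      exact this.symm
    · exact (g1 _ h).symm

omit [Fintype V] [DecidableEq V] [DecidableRel G.Adj] in
lemma odd_of_coc {S : Finset V} {ω : V → V → ZMod 2} (hS : S.Nonempty) (hC : Conn G S)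
    (hω : Coc G S ω) (h : ∀ f : V → ZMod 2, ¬ ∀ a ∈ S, ∀ b ∈ S, G.Adj a b → ω a b = f a + f b) :
    OddW G S ω := by
  classical
  obtain ⟨u, hu⟩ := hS
  by_contra hn
  have h1 : ∀ x s s' e e', Wk G S ω u x s e → Wk G S ω u x s' e' → e = e' := by
    intro x s s' e e' w w'
    by_contra hne
    have h7 : ∀ x e : ZMod 2, x ≠ e → x + e = 1 := by decide
    exact hn ⟨u, _, (w.trans (w'.symm hω.1)).cast rfl (h7 _ _ hne)⟩
  have h2 := hC (S.filter fun x => ∃ s e, Wk G S ω u x s e) (filter_subset _ _)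
    ⟨u, mem_filter.mpr ⟨hu, _, _, .refl u⟩⟩ fun a ha b hb hab => by
      obtain ⟨h2, s, e, w⟩ := mem_filter.mp ha
      exact mem_filter.mpr ⟨hb, _, _, w.step h2 hb hab⟩
  have h3 : ∀ x ∈ S, ∃ e s, Wk G S ω u x s e := fun x hx => by
    obtain ⟨-, s, e, w⟩ := mem_filter.mp (h2 hx)
    exact ⟨e, s, w⟩
  choose! f s hf using h3
  refine h f fun a ha b hb hab => ?_
  rw [h1 b _ _ _ _ (hf b hb) ((hf a ha).step ha hb hab), ← add_assoc, CharTwo.add_self_eq_zero,
    zero_add]

end Pool.Agent.Lib.MP_8cb124_co
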