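import Pool.Agent.Lib.MP_8cb124_co.Strip

open Finset

namespace Pool.Agent.Lib.MP_8cb124_co

variable {V : Type} [DecidableEq V] {G : SimpleGraph V} {S : Finset V}
  {L : ℕ} {y : ℕ → V} {B : ℕ → ℕ}

lemma Strip.mod (h : Strip G S L y B) (i : ℕ) : y (i % L) = y i := by
  have : ∀ m j, y (j + L * m) = y j := fun m j => by
    induction m with
    | zero => rfl
    | succ m ih => rw [mul_add_one, ← add_assoc, h.per, ih]
  conv_rhs => rw [← Nat.mod_add_div i L, this]

lemma Strip.inj [DecidableRel G.Adj] (h : Strip G S L y B) (hg : Good G S) {i j : ℕ}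
    (hij : y i = y j) : i % L = j % L := by
  have h1 : S ⊆ (range L).image y := fun a ha => by
    obtain ⟨b, hb⟩ := hg.nbr ha
    rw [mem_NS] at hb
    obtain ⟨i, hi, -⟩ := h.all a ha b hb.1 hb.2
    have : ∀ j, y j ∈ (range L).image y := fun j =>
      h.mod j ▸ mem_image_of_mem _ (mem_range.mpr (Nat.mod_lt _ h.pos))
    simp only [mem_insert, mem_singleton] at hi
    rcases hi with rfl | rfl | rfl <;> exact this _
  have h2 : ((range L).image y).card = (range L).card := by
    have := card_le_card h1
    have := card_image_le (s := range L) (f := y)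
    have := h.le
    rw [card_range] at *; omega
  exact card_image_iff.mp h2 (mem_coe.mpr (mem_range.mpr (Nat.mod_lt _ h.pos)))
    (mem_coe.mpr (mem_range.mpr (Nat.mod_lt _ h.pos))) (by rw [h.mod, h.mod, hij])

lemma Strip.inj' [DecidableRel G.Adj] (h : Strip G S L y B) (hg : Good G S) {i j : ℕ}
    (hij : y i = y j) (h1 : j < i + L) (h2 : i < j + L) : i = j :=
  Nat.ModEq.eq_of_abs_lt (h.inj hg hij) (abs_lt.mpr ⟨by omega, by omega⟩)

lemma Strip.B_le (h : Strip G S L y B) (i : ℕ) : B i ≤ i := by
  induction i with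
  | zero => exact h.zero.le
  | succ i ih => have := h.succ i; omega

lemma Strip.B_const (h : Strip G S L y B) {i j : ℕ} (h1 : B j ≤ i) (h2 : i ≤ j) : B i = B j := by
  induction j, h2 using Nat.le_induction with
  | base => rfl
  | succ j h2 ih => have := h.succ j; omega

variable [Fintype V] [DecidableRel G.Adj]

lemma Strip.pot (h : Strip G S L y B) (hg : Good G S) : ∃ E : ℕ → ℕ → Prop,
    (∀ i, E (i + 1) i) ∧ (∀ i, E (i + 2) (B i)) ∧ ∀ (z : ℕ → ℕ) (s : ℕ), 0 < s → z 0 = z s + L →
      (∀ t < s, E (z t) (z (t + 1))) → ∃ T ⊆ (range s).image fun t => y (z t), Hole G T := by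
  classical
  obtain ⟨ω, hω, hn⟩ := exists_coc hg.ne hg.e hg.t
  let f : ℕ → ZMod 2 := fun i => ∑ j ∈ range i, ω (y (j + 1)) (y j)
  have two : (2 : ZMod 2) = 0 := rfl
  have f1 : ∀ i, ω (y (i + 1)) (y i) = f (i + 1) + f i := fun i => by
    simp only [f, sum_range_succ]
    linear_combination (-∑ j ∈ range i, ω (y (j + 1)) (y j)) * two
  have f2 : ∀ i, (G.Adj (y (i + 1)) (y (B i)) ∧ ω (y (i + 1)) (y (B i)) = f (i + 1) + f (B i)) →
      ω (y (i + 2)) (y (B i)) = f (i + 2) + f (B i) := fun i hi => by
    rw [hω.2 _ (h.mem _) _ (h.mem _) _ (h.mem _) (h.adj1 (i + 1)) hi.1 (h.adj2 i), hi.2, f1]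
    linear_combination (f (i + 1)) * two
  have f3 : ∀ i, G.Adj (y (i + 1)) (y (B i)) ∧ ω (y (i + 1)) (y (B i)) = f (i + 1) + f (B i) := by
    intro i
    induction i with
    | zero => rw [h.zero]; exact ⟨h.adj1 0, f1 0⟩
    | succ i ih =>
      rcases h.succ i with h1 | h1 <;> rw [h1]
      exacts [⟨h.adj1 _, f1 _⟩, ⟨h.adj2 i, f2 i ih⟩]
  have f4 : ∀ i, f (i + L) = f i + f L := by
    intro i
    induction i with
    | zero => simp [f]
    | succ i ih =>
      have e1 := f1 (i + L)
      rw [← add_right_comm, h.per, h.per, f1, ih] at e1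
      linear_combination -e1 - (f L) * two
  have f5 : f L = 1 := by
    by_contra h1
    have h2 : f L = 0 := by revert h1; generalize f L = x; revert x; decide
    have h3 : ∀ i, f (i % L) = f i := fun i => by
      have : ∀ m j, f (j + L * m) = f j := fun m j => by
        induction m with
        | zero => rfl
        | succ m ih => rw [mul_add_one, ← add_assoc, f4, h2, add_zero, ih]
      conv_rhs => rw [← Nat.mod_add_div i L, this]
    let g : V → ZMod 2 := fun a => if h : ∃ i, y i = a then f h.choose else 0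
    have h4 : ∀ i, g (y i) = f i := fun i => by
      have h5 : ∃ j, y j = y i := ⟨i, rfl⟩
      simp only [g, dif_pos h5]
      rw [← h3, h.inj hg h5.choose_spec, h3]
    refine hn g fun a ha b hb hab => ?_
    obtain ⟨i, h5, h6⟩ := h.all a ha b hb hab
    have e1 := f1 (i + 1)
    have e2 := f2 i (f3 i)
    have e3 := (f3 i).2
    simp only [mem_insert, mem_singleton] at h5 h6
    rcases h5 with rfl | rfl | rfl <;> rcases h6 with rfl | rfl | rfl <;> simp only [h4] <;>
      first | exact absurd rfl hab.ne | assumption | (rw [hω.1, add_comm (f _)]; assumption)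
  refine ⟨fun i j => G.Adj (y i) (y j) ∧ ω (y i) (y j) = f i + f j, fun i => ⟨h.adj1 i, f1 i⟩,
    fun i => ⟨h.adj2 i, f2 i (f3 i)⟩, fun z s hs hz hE => ?_⟩
  have h1 : y (z s) = y (z 0) := by rw [hz, h.per]
  have h2 : ∀ t ≤ s, y (z t) ∈ (range s).image fun t => y (z t) := fun t ht => by
    rcases ht.lt_or_eq with ht | rfl
    · exact mem_image_of_mem _ (mem_range.mpr ht)
    · rw [h1]; exact mem_image_of_mem (fun t => y (z t)) (mem_range.mpr hs)
  have w := Wk.seg (G := G) (W := (range s).image fun t => y (z t)) (ω := ω) (c := fun t => y (z t))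
    (P := fun t => f (z t)) 0 s fun t _ ht => ⟨h2 t (by omega), h2 _ (by omega), (hE t (by omega)).1,
      by rw [(hE t (by omega)).2]; linear_combination (-f (z t)) * two⟩
  simp only [zero_add, h1] at w
  exact hole_of_odd (hω.mono (image_subset_iff.mpr fun t _ => h.mem _))
    ⟨_, _, w.cast rfl (by rw [hz, f4, f5]; linear_combination -two)⟩

lemma Strip.main (h : Strip G S L y B) (hg : Good G S) {k : ℕ} (hk : 4 ≤ k)
    (hn : Fintype.card V ≤ 2 * k) (hH : ∀ T, Hole G T → k ≤ T.card)
    (h2 : Fintype.card V = 2 * k → hc G k ≤ 2) : L = Fintype.card V ∧ ∀ i, B i = i := by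
  classical
  obtain ⟨E, e1, e2, e3⟩ := h.pot hg
  have hL : L ≤ Fintype.card V := h.le.trans (card_le_univ S)
  have c1 : ∀ (z : ℕ → ℕ) (s : ℕ), z 0 = z s + L → (∀ t < s, E (z t) (z (t + 1))) → k ≤ s := by
    intro z s hz hE
    rcases Nat.eq_zero_or_pos s with rfl | hs
    · have := h.pos; omega
    obtain ⟨T, h3, h4⟩ := e3 z s hs hz hE
    exact (hH T h4).trans ((card_le_card h3).trans (card_image_le.trans (card_range s).le))
  have c2 : ∀ z : ℕ → ℕ, z 0 = z k + L → (∀ t < k, E (z t) (z (t + 1))) →
      ((range k).image fun t => y (z t)) ∈ univ.filter fun S => Hole G S ∧ S.card = k := by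
    intro z hz hE
    obtain ⟨T, h3, h4⟩ := e3 z k (by omega) hz hE
    have h5 : ((range k).image fun t => y (z t)).card ≤ k := card_image_le.trans (card_range k).le
    have h6 := hH T h4
    obtain rfl := eq_of_subset_of_card_le h3 (h5.trans h6)
    exact mem_filter.mpr ⟨mem_univ _, h4, le_antisymm h5 h6⟩
  have c3 : ∀ z1 z2 z3 : ℕ → ℕ, Fintype.card V = 2 * k → z1 0 = z1 k + L → z2 0 = z2 k + L →
      z3 0 = z3 k + L → (∀ t < k, E (z1 t) (z1 (t + 1))) → (∀ t < k, E (z2 t) (z2 (t + 1))) →
      (∀ t < k, E (z3 t) (z3 (t + 1))) → ∀ a < k, ∀ b < k,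
      (∀ t < k, z2 a ≠ z1 t ∧ z1 t < z2 a + L ∧ z2 a < z1 t + L) →
      (∀ t < k, z3 b ≠ z1 t ∧ z1 t < z3 b + L ∧ z3 b < z1 t + L) →
      (∀ t < k, z3 b ≠ z2 t ∧ z2 t < z3 b + L ∧ z3 b < z2 t + L) → False := by
    intro z1 z2 z3 hn' a1 a2 a3 b1 b2 b3 a ha b hb n1 n2 n3
    have key : ∀ (z z' : ℕ → ℕ) a, a < k → (∀ t < k, z a ≠ z' t ∧ z' t < z a + L ∧ z a < z' t + L) →
        ((range k).image fun t => y (z' t)) ≠ (range k).image fun t => y (z t) := by
      intro z z' a ha n h3
      have h4 : y (z a) ∈ (range k).image fun t => y (z' t) :=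
        h3 ▸ mem_image_of_mem (fun t => y (z t)) (mem_range.mpr ha)
      obtain ⟨t, ht, h5⟩ := mem_image.mp h4
      obtain ⟨n1, n2, n3⟩ := n t (mem_range.mp ht)
      exact n1 (h.inj' hg h5.symm n2 n3)
    have := two_lt_card_iff.mpr ⟨_, _, _, c2 z1 a1 b1, c2 z2 a2 b2, c2 z3 a3 b3, key z2 z1 a ha n1,
      key z3 z1 b hb n2, key z3 z2 b hb n3⟩
    have h3 := h2 hn'
    unfold hc at h3
    exact absurd this (not_lt.mpr (by convert h3))
  have e4 : ∀ a b, a = b + 1 → E a b := fun a b hab => hab ▸ e1 b
  have e5 : ∀ a b i, a = i + 2 → b = B i → E a b := fun a b i ha hb => ha ▸ hb ▸ e2 i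
  have hB : ∀ i, B i = i := by
    intro i
    by_contra h3
    have h4 : B i < i := lt_of_le_of_ne (h.B_le i) h3
    let z : ℕ → ℕ := fun t => (fun j => B (j - 2))^[t] (i + 2 + L)
    have z0 : z 0 = i + 2 + L := rfl
    have zs : ∀ t, z (t + 1) = B (z t - 2) := fun t => Function.iterate_succ_apply' _ _ _
    have z1 : z 1 = B i + L := by rw [zs, z0, ← h.perB]; congr 1; omega
    have zl : ∀ t, z (t + 1) ≤ z t - 2 := fun t => zs t ▸ h.B_le _
    have h5 : ∃ s, z s ≤ i + 2 := by
      by_contra h5
      push Not at h5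
      have : ∀ t, z t + 2 * t ≤ i + 2 + L := fun t => by
        induction t with
        | zero => omega
        | succ t ih => have := zl t; have := h5 t; omega
      have := this (i + 2 + L); omega
    have h6 := Nat.find_spec h5
    have h7 := fun m => Nat.find_min h5 (m := m)
    generalize Nat.find h5 = s at h6 h7
    obtain ⟨s, rfl⟩ : ∃ r, s = r + 1 := ⟨s - 1, by
      rcases s with _ | s
      · have := h.pos; omega
      · omega⟩
    have zE : ∀ t ≤ s, E (z t) (z (t + 1)) := fun t ht =>
      e5 _ _ _ (by have := h7 t (by omega); omega) (zs t)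
    have zu : ∀ d t, t + d ≤ s + 1 → z (t + d) + 2 * d ≤ z t := fun d t => by
      induction d with
      | zero => simp
      | succ d ih =>
        intro h8
        have := zl (t + d); have := h7 (t + d) (by omega); have := ih (by omega)
        rw [← add_assoc]; omega
    have h8 := zu s 1 (by omega)
    rw [add_comm 1 s] at h8
    rcases (by omega : z (s + 1) = i + 2 ∨ z (s + 1) ≤ i ∨ z (s + 1) = i + 1) with h9 | h9 | h9
    · have := c1 z (s + 1) (by omega) fun t ht => zE t (by omega)
      omega
    · have h10 := h7 s (by omega)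
      have h11 : B i = z (s + 1) := (h.B_const (zs s ▸ h9) (by omega)).trans (zs s).symm
      have := c1 (fun t => z (t + 1)) s (by simp only [zero_add]; omega) fun t ht => zE _ ht
      obtain ⟨s, rfl⟩ : ∃ r, s = r + 1 := ⟨s - 1, by omega⟩
      have := zu s 1 (by omega)
      rw [add_comm 1 s] at this
      omega
    have b1 : B (i + L - 1) = B i + L := by
      rw [← h.perB]; exact h.B_const (by rw [h.perB]; omega) (by omega)
    have h10 := c1 (fun t => if t = 0 then i + 1 + L else z t) (s + 1) (by simp [h9]) fun t ht => by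
      rcases t with _ | t
      · exact e5 _ _ (i + L - 1) (by simp; omega) (by simp [z1, b1])
      · simpa using zE (t + 1) (by omega)
    have h11 : ∀ t ≤ s, z (t + 1) + 2 * t = i + L - 1 := fun t ht => by
      have := zu t 1 (by omega)
      have := zu (s - t) (t + 1) (by omega)
      rw [show t + 1 + (s - t) = s + 1 by omega] at this
      rw [add_comm 1 t] at *
      omega
    have h12 : ∀ t, B (i + 1 + 2 * t) = i + 1 + 2 * t := fun t => by
      induction t using Nat.strong_induction_on with
      | _ t ih =>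
      rcases lt_trichotomy t s with h12 | rfl | h12
      · have := h11 (s - t) (by omega)
        have := h11 (s - t - 1) (by omega)
        have h13 := zs (s - t)
        rw [show s - t - 1 + 1 = s - t by omega] at this
        rw [show z (s - t) - 2 = i + 1 + 2 * t by omega] at h13
        omega
      · rw [show i + 1 + 2 * t = i + L - 1 by omega]; omega
      · have := ih (t - (s + 1)) (by omega)
        rw [show i + 1 + 2 * t = i + 1 + 2 * (t - (s + 1)) + L by omega, h.perB, this]
    have e6 : ∀ a b, a = b + 2 → i + 1 ≤ b → b % 2 = (i + 1) % 2 → E a b := fun a b h1 h2 h3 =>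
      e5 a b b h1 (by have := h12 ((b - i - 1) / 2); rw [show i + 1 + 2 * ((b - i - 1) / 2) = b by omega] at this; omega)
    have b2 := h.perB i
    have b3 := h12 k
    rw [show i + 1 + 2 * k = i + L + 1 by omega] at b3
    have w1 : ∀ t < k, E (i + L + 5 - 2 * t) (i + L + 5 - 2 * (t + 1)) := fun t ht =>
      e6 _ _ (by omega) (by omega) (by omega)
    have w2 : ∀ t < k, E (if t = 1 then i + L + 2 else i + L + 3 - 2 * t)
        (if t + 1 = 1 then i + L + 2 else i + L + 3 - 2 * (t + 1)) := fun t ht => by
      split_ifs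
      · omega
      · exact e5 _ _ (i + L) rfl (by omega)
      · exact e4 _ _ (by omega)
      · exact e6 _ _ (by omega) (by omega) (by omega)
    rcases (show B (i + L + 2) = i + L + 2 ∨ B (i + L + 2) = B (i + L + 1) from h.succ _) with b4 | b4
    · refine c3 (fun t => i + L + 5 - 2 * t) (fun t => if t = 1 then i + L + 2 else i + L + 3 - 2 * t)
        (fun t => if t = 1 then i + L + 4 else if t = 2 then i + L + 2 else i + L + 5 - 2 * t)
        (by omega) (by omega) (by split_ifs <;> first | contradiction | omega)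
        (by split_ifs <;> first | contradiction | omega) w1 w2 (fun t ht => ?_) 1 (by omega) 1 (by omega)
        (fun t ht => by simp only [if_true]; omega) (fun t ht => by simp only [if_true]; omega)
        (fun t ht => by simp only [if_true]; split_ifs <;> omega)
      split_ifs <;> first | omega | contradiction | exact e4 _ _ (by omega) | exact e5 _ _ (i + L) rfl (by omega) | exact e5 _ _ (i + L + 2) rfl (by omega) | exact e6 _ _ (by omega) (by omega) (by omega)
    · refine c3 (fun t => i + L + 5 - 2 * t) (fun t => if t = 1 then i + L + 2 else i + L + 3 - 2 * t)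
        (fun t => if t = 1 then i + L + 4 else i + L + 5 - 2 * t)
        (by omega) (by omega) (by split_ifs <;> first | contradiction | omega)
        (by split_ifs <;> first | contradiction | omega) w1 w2 (fun t ht => ?_) 1 (by omega) 1 (by omega)
        (fun t ht => by simp only [if_true]; omega) (fun t ht => by simp only [if_true]; omega)
        (fun t ht => by simp only [if_true]; split_ifs <;> omega)
      split_ifs <;> first | omega | contradiction | exact e4 _ _ (by omega) | exact e5 _ _ (i + L + 2) rfl (by omega) | exact e6 _ _ (by omega) (by omega) (by omega)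
  refine ⟨?_, hB⟩
  have e6 : ∀ a b, a = b + 2 → E a b := fun a b h1 => e5 a b b h1 (hB b).symm
  have w : ∀ u m, L + 1 = 2 * m → ∀ t < m, E (if t = 0 then u + L else u + L + 1 - 2 * t)
      (if t + 1 = 0 then u + L else u + L + 1 - 2 * (t + 1)) := fun u m hm t ht => by
    split_ifs <;> first | omega | contradiction | exact e4 _ _ (by omega) | exact e6 _ _ (by omega)
  by_contra h3
  rcases Nat.even_or_odd' L with ⟨m, hm | hm⟩
  · have := c1 (fun t => L - 2 * t) m (by omega) fun t ht => e6 _ _ (by omega)
    omega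
  · have := c1 (fun t => if t = 0 then 0 + L else 0 + L + 1 - 2 * t) (m + 1)
      (by split_ifs <;> first | contradiction | omega) (w 0 _ (by omega))
    exact c3 (fun t => if t = 0 then 4 + L else 4 + L + 1 - 2 * t)
      (fun t => if t = 0 then 2 + L else 2 + L + 1 - 2 * t)
      (fun t => if t = 0 then 0 + L else 0 + L + 1 - 2 * t) (by omega)
      (by split_ifs <;> first | contradiction | omega) (by split_ifs <;> first | contradiction | omega)
      (by split_ifs <;> first | contradiction | omega) (w 4 k (by omega)) (w 2 k (by omega)) (w 0 k (by omega))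
      0 (by omega) 0 (by omega) (fun t ht => by simp only [if_true]; split_ifs <;> omega)
      (fun t ht => by simp only [if_true]; split_ifs <;> omega)
      (fun t ht => by simp only [if_true]; split_ifs <;> omega)

end Pool.Agent.Lib.MP_8cb124_co
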