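import Pool.Agent.Lib.MP_8cb124_co.Hub

open Finset

namespace Pool.Agent.Lib.MP_8cb124_co

variable {V : Type} [DecidableEq V] {G : SimpleGraph V} [DecidableRel G.Adj]

/-- all links are forests -/
def LF (G : SimpleGraph V) [DecidableRel G.Adj] : Prop :=
  ∀ v (T : Finset V), (∀ x ∈ T, G.Adj v x) → T.Nonempty → m2 G T + 2 ≤ 2 * T.card

/-- sets with the edge and triangle counts of the square of a cycle -/
structure Good (G : SimpleGraph V) [DecidableRel G.Adj] (S : Finset V) : Prop where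
  ne : S.Nonempty
  e : m2 G S = 4 * S.card
  t : t6 G S = 6 * S.card
  conn : Conn G S

/-- number of triangles on an edge -/
def tau (G : SimpleGraph V) [DecidableRel G.Adj] (S : Finset V) (a c : V) : ℕ :=
  (S.filter fun b => G.Adj a b ∧ G.Adj c b).card

omit [DecidableEq V] in
lemma tau_comm (S : Finset V) (a c : V) : tau G S a c = tau G S c a := by
  simp only [tau, and_comm]

variable {S : Finset V}

omit [DecidableEq V] in
lemma Good.four (h : Good G S) : 4 ≤ S.card := by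
  have h1 : m2 G S ≤ S.card * S.card := by
    rw [m2_eq, ← smul_eq_mul]
    exact sum_le_card_nsmul _ _ _ fun x _ => card_le_card (filter_subset _ _)
  rw [h.e] at h1
  exact Nat.le_of_mul_le_mul_right h1 (card_pos.mpr h.ne)

omit [DecidableEq V] in
lemma Good.nbr (h : Good G S) {v : V} (hv : v ∈ S) : (NS G S v).Nonempty := by
  rw [nonempty_iff_ne_empty]
  intro h1
  have := card_le_card (h.conn {v} (by simpa) (by simp) fun a ha b hb hab => by
    rw [mem_singleton.mp ha] at hab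
    exact absurd ((mem_NS G).mpr ⟨hb, hab⟩) (by simp [h1]))
  have := h.four
  simp at *; omega

lemma Good.link (h : Good G S) (hF : LF G) {v : V} (hv : v ∈ S) : Conn G (NS G S v) := by
  have h1 : ∀ v ∈ S, m2 G (NS G S v) + 2 = 2 * (NS G S v).card := by
    refine (sum_eq_sum_iff_of_le fun v hv =>
      hF v _ (fun x hx => ((mem_NS G).mp hx).2) (h.nbr hv)).mp ?_
    rw [sum_add_distrib, ← t6_eq, ← mul_sum, ← m2_eq, h.e, h.t, sum_const, smul_eq_mul]; ring
  intro U hU hne hcl
  by_contra h2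
  have h3 := m2_union (G := G) (disjoint_sdiff (s := U) (t := NS G S v))
  have h4 : ∑ b ∈ NS G S v \ U, (NS G U b).card = 0 := sum_eq_zero fun b hb =>
    card_eq_zero.mpr (filter_eq_empty_iff.mpr fun a ha hba =>
      (mem_sdiff.mp hb).2 (hcl a ha b (mem_sdiff.mp hb).1 hba.symm))
  rw [union_sdiff_of_subset hU] at h3
  have := hF v U (fun x hx => ((mem_NS G).mp (hU hx)).2) hne
  have := hF v (NS G S v \ U) (fun x hx => ((mem_NS G).mp (mem_sdiff.mp hx).1).2)
    (sdiff_nonempty.mpr h2)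
  have := card_sdiff_add_card_eq_card hU
  have := h1 v hv
  omega

lemma Good.tau_pos (h : Good G S) (hF : LF G) {a c : V} (ha : a ∈ S) (hc : c ∈ S)
    (hac : G.Adj a c) : 0 < tau G S a c := by
  by_contra h1
  have h2 : ∀ a ∈ S, ∀ c ∈ S, G.Adj a c → ¬ 0 < tau G S a c → ∀ b ∈ S, G.Adj a b → b = c := by
    intro a ha c hc hac h1 b hb hab
    refine mem_singleton.mp (h.link hF ha {c} (by simpa using (mem_NS G).mpr ⟨hc, hac⟩) (by simp)
      (fun x hx y hy hxy => absurd ?_ h1) ((mem_NS G).mpr ⟨hb, hab⟩))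
    rw [mem_singleton.mp hx] at hxy
    rw [mem_NS] at hy
    exact card_pos.mpr ⟨y, mem_filter.mpr ⟨hy.1, hy.2, hxy⟩⟩
  have h3 := card_le_card (h.conn {a, c} (by simp [insert_subset_iff, ha, hc]) (by simp)
    fun x hx b hb hxb => by
      rcases mem_insert.mp hx with rfl | hx
      · simp [h2 x ha c hc hac h1 b hb hxb]
      · rw [mem_singleton.mp hx] at hxb
        simp [h2 c hc a ha hac.symm (by rwa [tau_comm]) b hb hxb])
  have := h.four
  have : ({a, c} : Finset V).card ≤ 2 := card_le_two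
  omega

lemma Good.deg (h : Good G S) (hF : LF G) (hm : ∀ v ∈ S, ¬ Good G (S.erase v)) {v : V}
    (hv : v ∈ S) : 3 ≤ (NS G S v).card := by
  by_contra h1
  obtain ⟨a, ha⟩ := h.nbr hv
  obtain ⟨b, hb⟩ := card_pos.mp (h.tau_pos hF hv ((mem_NS G).mp ha).1 ((mem_NS G).mp ha).2)
  rw [mem_filter] at hb
  have h2 : {a, b} = NS G S v := eq_of_subset_of_card_le
    (insert_subset ha (by simpa using (mem_NS G).mpr ⟨hb.1, hb.2.1⟩))
    (by rw [card_pair hb.2.2.ne]; omega)
  have h3 : Simp G S v := ⟨hv, fun x hx y hy h3 h4 hxy => by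
    have h5 : x ∈ ({a, b} : Finset V) := h2 ▸ (mem_NS G).mpr ⟨hx, h3⟩
    have h6 : y ∈ ({a, b} : Finset V) := h2 ▸ (mem_NS G).mpr ⟨hy, h4⟩
    simp only [mem_insert, mem_singleton] at h5 h6
    rcases h5 with rfl | rfl <;> rcases h6 with rfl | rfl
    exacts [absurd rfl hxy, hb.2.2, hb.2.2.symm, absurd rfl hxy]⟩
  have h4 : (NS G S v).card = 2 := by rw [← h2, card_pair hb.2.2.ne]
  have h5 := h3.m2
  have e1 := m2_erase G hv
  have e2 := t6_erase G hv
  have e3 := card_erase_add_one hv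
  have := h.four
  have := h.e
  have := h.t
  rw [h4] at h5
  refine hm v hv ⟨card_pos.mp (by omega), by omega, by omega, fun U hU hne hcl => ?_⟩
  have hU' : U ⊆ S := hU.trans (erase_subset _ _)
  by_cases h6 : ∃ u ∈ U, G.Adj v u
  · obtain ⟨u, hu, hvu⟩ := h6
    refine subset_insert_iff.mp (h.conn (insert v U) (insert_subset hv hU') (by simp) ?_)
    intro x hx y hy hxy
    by_cases hyv : y = v
    · simp [hyv]
    refine mem_insert_of_mem ?_
    rcases mem_insert.mp hx with rfl | hx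
    · by_cases huy : u = y
      · exact huy ▸ hu
      · exact hcl u hu y (mem_erase.mpr ⟨hyv, hy⟩) (h3.2 u (hU' hu) y hy hvu hxy huy)
    · exact hcl x hx y (mem_erase.mpr ⟨hyv, hy⟩) hxy
  · refine (erase_subset _ _).trans (h.conn U hU' hne fun x hx y hy hxy => ?_)
    exact hcl x hx y (mem_erase.mpr ⟨fun h7 => h6 ⟨x, hx, h7 ▸ hxy.symm⟩, hy⟩) hxy

omit [DecidableEq V] in
lemma tau_one {a c b b' : V} (h : tau G S a c = 1) (hb : b ∈ S) (hb' : b' ∈ S) (h1 : G.Adj a b)
    (h2 : G.Adj c b) (h3 : G.Adj a b') (h4 : G.Adj c b') : b = b' :=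
  card_le_one.mp h.le b (mem_filter.mpr ⟨hb, h1, h2⟩) b' (mem_filter.mpr ⟨hb', h3, h4⟩)

lemma Good.one (h : Good G S) (hF : LF G) (hm : ∀ v ∈ S, ¬ Good G (S.erase v)) {x y z : V}
    (hx : x ∈ S) (hy : y ∈ S) (hz : z ∈ S) (h1 : G.Adj x y) (h2 : G.Adj x z) (h3 : G.Adj y z)
    (h4 : tau G S x y = 1) : tau G S x z ≠ 1 := by
  intro h5
  have h6 := card_le_card (h.link hF hx {y, z} (insert_subset ((mem_NS G).mpr ⟨hy, h1⟩)
    (by simpa using (mem_NS G).mpr ⟨hz, h2⟩)) (by simp) fun a ha b hb hab => by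
      rw [mem_NS] at hb
      rcases mem_insert.mp ha with rfl | ha
      · simp [tau_one h4 hb.1 hz hb.2 hab h2 h3]
      · rw [mem_singleton.mp ha] at hab
        simp [tau_one h5 hb.1 hy hb.2 hab h1 h3.symm])
  have := h.deg hF hm hx
  have : ({y, z} : Finset V).card ≤ 2 := card_le_two
  omega

/-- triangles with a marked boundary edge -/
def St (G : SimpleGraph V) [DecidableRel G.Adj] (S : Finset V) : Finset (V × V × V) :=
  (S ×ˢ S ×ˢ S).filter fun p => (G.Adj p.1 p.2.1 ∧ G.Adj p.1 p.2.2 ∧ G.Adj p.2.1 p.2.2) ∧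
    tau G S p.1 p.2.2 = 1

omit [DecidableEq V] in
lemma mem_St {x p z : V} : (x, p, z) ∈ St G S ↔ x ∈ S ∧ p ∈ S ∧ z ∈ S ∧ G.Adj x p ∧ G.Adj x z ∧
    G.Adj p z ∧ tau G S x z = 1 := by
  simp [St, and_assoc]

lemma Good.count (h : Good G S) (hF : LF G) (hm : ∀ v ∈ S, ¬ Good G (S.erase v)) :
    (St G S).card ≤ 2 * S.card ∧ (∀ a ∈ S, ∀ c ∈ S, G.Adj a c → tau G S a c ≤ 2) ∧
    ∀ a ∈ S, ∀ b ∈ S, ∀ c ∈ S, G.Adj a b → G.Adj a c → G.Adj b c →
      tau G S a c = 1 ∨ tau G S a b = 1 ∨ tau G S b c = 1 := by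
  let I : V → V → V → ℕ := fun a b c =>
    if (G.Adj a b ∧ G.Adj a c ∧ G.Adj b c) ∧ tau G S a c = 1 then 1 else 0
  let s : (V → V → V → ℕ) → ℕ := fun I => ∑ a ∈ S, ∑ b ∈ S, ∑ c ∈ S, I a b c
  have s1 : ∀ I, s (fun a b c => I b a c) = s I := fun I => sum_comm
  have s2 : ∀ I, s (fun a b c => I a c b) = s I := fun I => sum_congr rfl fun _ _ => sum_comm
  have h1 : (St G S).card = s I := by simp only [St, card_filter, sum_product, s, I]
  have h2 : ∀ a ∈ S, ∀ b ∈ S, ∀ c ∈ S, I a b c + I a c b + I b a c ≤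
      if G.Adj a b ∧ G.Adj a c ∧ G.Adj b c then 1 else 0 := by
    intro a ha b hb c hc
    simp only [I, G.adj_comm b a, G.adj_comm c b]
    by_cases h1 : G.Adj a b <;> by_cases h2 : G.Adj a c <;> by_cases h3 : G.Adj b c <;>
      simp only [h1, h2, h3, and_self, true_and, false_and, and_false, if_false, if_true, le_refl]
    have := h.one hF hm ha hb hc h1 h2 h3
    have := h.one hF hm hb ha hc h1.symm h3 h2
    have := h.one hF hm hc ha hb h2.symm h3.symm h1
    have := tau_comm (G := G) S a b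
    have := tau_comm (G := G) S a c
    have := tau_comm (G := G) S b c
    split_ifs <;> omega
  have h3 : s (fun a b c => I a b c + I a c b + I b a c) = 3 * s I := by
    have := s1 I
    have := s2 I
    simp only [s, sum_add_distrib] at *
    omega
  have h4 : s (fun a b c => I a b c + I a c b + I b a c) ≤ t6 G S :=
    sum_le_sum fun a ha => sum_le_sum fun b hb => sum_le_sum fun c hc => h2 a ha b hb c hc
  have h5 : ∀ a ∈ S, ∀ c ∈ S, 2 * (if G.Adj a c then 1 else 0) ≤
      ∑ b ∈ S, (I a b c + if G.Adj a c ∧ G.Adj a b ∧ G.Adj c b then 1 else 0) ∧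
      (G.Adj a c → tau G S a c ≤
        ∑ b ∈ S, (I a b c + if G.Adj a c ∧ G.Adj a b ∧ G.Adj c b then 1 else 0)) := by
    intro a ha c hc
    by_cases hac : G.Adj a c
    · have := h.tau_pos hF ha hc hac
      simp only [sum_add_distrib, I, hac, true_and, ← card_filter, G.adj_comm _ c, if_true]
      by_cases h6 : tau G S a c = 1
      · simp only [h6, and_true]; unfold tau at *; omega
      · unfold tau at *; omega
    · simp [hac]
  have h6 : ∑ a ∈ S, ∑ c ∈ S, ∑ b ∈ S,
      (I a b c + if G.Adj a c ∧ G.Adj a b ∧ G.Adj c b then 1 else 0) = s I + t6 G S := by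
    rw [← s2 I]; simp only [sum_add_distrib, s, t6]
  have h7 : ∑ a ∈ S, ∑ c ∈ S, 2 * (if G.Adj a c then 1 else 0) = 2 * m2 G S := by
    simp only [m2, mul_sum]
  have h8 := sum_le_sum fun a ha => sum_le_sum fun c hc => (h5 a ha c hc).1
  have := h.e
  have := h.t
  refine ⟨by omega, fun a ha c hc hac => ?_, fun a ha b hb c hc hab hac hbc => ?_⟩
  · have h9 := (sum_eq_sum_iff_of_le fun c hc => (h5 a ha c hc).1).mp
      ((sum_eq_sum_iff_of_le fun a ha => sum_le_sum fun c hc => (h5 a ha c hc).1).mp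
        (by omega) a ha) c hc
    have := (h5 a ha c hc).2 hac
    rw [if_pos hac] at h9
    omega
  · have h9 := (sum_eq_sum_iff_of_le (h2 a ha b hb)).mp ((sum_eq_sum_iff_of_le fun b hb =>
      sum_le_sum (h2 a ha b hb)).mp ((sum_eq_sum_iff_of_le fun a ha => sum_le_sum fun b hb =>
        sum_le_sum (h2 a ha b hb)).mp (show s _ = t6 G S by omega) a ha) b hb) c hc
    simp only [I, hab, hac, hbc, hab.symm, hbc.symm, and_self, true_and, if_true] at h9
    by_contra h10
    push Not at h10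
    simp [h10] at h9

end Pool.Agent.Lib.MP_8cb124_co
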