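import Pool.Agent.Lib.MP_8cb124_co.Coc

open Finset

namespace Pool.Agent.Lib.MP_8cb124_co

variable {V : Type} [DecidableEq V] {G : SimpleGraph V} [DecidableRel G.Adj]

lemma m2_union {A B : Finset V} (h : Disjoint A B) :
    m2 G (A ∪ B) = m2 G A + m2 G B + 2 * ∑ b ∈ B, (NS G A b).card := by
  have h1 : ∑ b ∈ B, (NS G A b).card = ∑ b ∈ B, ∑ a ∈ A, if G.Adj b a then 1 else 0 := by
    simp only [NS, card_filter]
  have h2 : ∑ b ∈ B, (NS G A b).card = ∑ a ∈ A, ∑ b ∈ B, if G.Adj a b then 1 else 0 := by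
    rw [h1, sum_comm]; simp only [G.adj_comm]
  simp only [m2, sum_union h, sum_add_distrib]
  omega

lemma forest (hK : K4f G) {v : V} (T : Finset V) (hv : ∀ x ∈ T, G.Adj v x) (hT : SE G T)
    (hne : T.Nonempty) : m2 G T + 2 ≤ 2 * T.card := by
  induction T using Finset.strongInduction with
  | H T ih =>
    obtain ⟨w, hw⟩ := hT T subset_rfl hne
    have h1 : (NS G T w).card ≤ 1 := card_le_one.mpr fun a ha b hb => by
      rw [mem_NS] at ha hb
      by_contra hab
      exact hK v w a b (hv w hw.1) (hv a ha.1) (hv b hb.1) ha.2 hb.2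
        (hw.2 a ha.1 b hb.1 ha.2 hb.2 hab)
    have h2 := card_erase_add_one hw.1
    rw [m2_erase G hw.1]
    rcases (T.erase w).eq_empty_or_nonempty with h3 | h3
    · rw [← NS_erase, h3] at *
      simp [m2, NS, ← h2]
    · have := ih _ (erase_ssubset hw.1) (fun x hx => hv x (mem_of_mem_erase hx))
        (fun U hU => hT U (hU.trans (erase_subset _ _))) h3
      omega

lemma forest_big (hK : K4f G) {v : V} {k : ℕ} (hS : ∀ T : Finset V, T.card < k → SE G T) (j : ℕ)
    (hj : j + 4 ≤ k) : ∀ T : Finset V, (∀ x ∈ T, G.Adj v x) → T.Nonempty → T.card < k + j →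
      m2 G T + 2 ≤ 2 * T.card + 2 * j := by
  induction j with
  | zero => exact fun T hv hne hT => forest hK T hv (hS T hT) hne
  | succ j ih =>
    intro T hv hne hT
    rcases (by omega : T.card < k + j ∨ T.card = k + j) with h1 | h1
    · have := ih (by omega) T hv hne h1; omega
    obtain ⟨u, hu, h2⟩ := exists_min_image T (fun u => (NS G T u).card) hne
    have h3 : T.card * (NS G T u).card ≤ m2 G T := by
      rw [m2_eq, ← smul_eq_mul]; exact card_nsmul_le_sum _ _ _ h2
    have h4 := card_erase_add_one hu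
    have h5 := ih (by omega) (T.erase u) (fun x hx => hv x (mem_of_mem_erase hx))
      (card_pos.mp (by omega)) (by omega)
    rw [m2_erase G hu] at h3 ⊢
    have h6 : (NS G T u).card ≤ 2 := by
      by_contra h6
      obtain ⟨d, hd⟩ : ∃ d, (NS G T u).card = d + 3 := ⟨(NS G T u).card - 3, by omega⟩
      rw [hd, mul_add] at h3
      have : 2 * d ≤ T.card * d := Nat.mul_le_mul_right d (by omega)
      omega
    omega

omit [DecidableRel G.Adj] in
lemma no_c4 {k : ℕ} (hS : ∀ T : Finset V, T.card < k → SE G T) (hk : 5 ≤ k) {v a y b : V}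
    (h1 : G.Adj v a) (h2 : G.Adj v b) (h3 : G.Adj y a) (h4 : G.Adj y b) (h5 : ¬ G.Adj v y)
    (h6 : v ≠ y) (h7 : a ≠ b) : G.Adj a b := by
  by_contra h8
  obtain ⟨w, hw, h9⟩ := hS {v, a, y, b} (card_le_four.trans_lt hk) _ subset_rfl (by simp)
  simp only [mem_insert, mem_singleton] at hw
  rcases hw with rfl | rfl | rfl | rfl
  · exact h8 (h9 a (by simp) b (by simp) h1 h2 h7)
  · exact h5 (h9 v (by simp) y (by simp) h1.symm h3.symm h6)
  · exact h8 (h9 a (by simp) b (by simp) h3 h4 h7)
  · exact h5 (h9 v (by simp) y (by simp) h2.symm h4.symm h6)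

lemma window {I : Finset ℕ} {l q : ℕ} (hl : 3 * q < l) (h1 : ∀ i ∈ I, i < l)
    (h : ∀ i ∈ I, ∀ j ∈ I, i ≤ j → j ≤ i + q ∨ l + i ≤ j + q) : I.card ≤ q + 1 := by
  rcases I.eq_empty_or_nonempty with rfl | hne
  · simp
  obtain ⟨a, h2, h3⟩ := exists_min_image I id hne
  simp only [id] at h3
  rcases (I.filter (a + q < ·)).eq_empty_or_nonempty with h4 | h4
  · refine (card_le_card (t := Icc a (a + q)) fun i hi => ?_).trans (by simp; omega)
    have := filter_eq_empty_iff.mp h4 hi
    have := h3 i hi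
    rw [mem_Icc]; omega
  · obtain ⟨b, h5, h6⟩ := exists_min_image _ id h4
    simp only [id] at h6
    rw [mem_filter] at h5
    have h7 := h a h2 b h5.1 (by omega)
    have := h1 b h5.1
    refine (card_le_card (t := Ico b l ∪ range (b + q + 1 - l)) fun i hi => ?_).trans
      ((card_union_le _ _).trans (by simp; omega))
    rw [mem_union, mem_Ico, mem_range]
    by_cases h8 : a + q < i
    · exact Or.inl ⟨h6 i (mem_filter.mpr ⟨hi, h8⟩), h1 i hi⟩
    · have := h i hi b h5.1 (by omega)
      omega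

variable [Fintype V]

/-- distance at most q -/
def Near (G : SimpleGraph V) (ω : V → V → ZMod 2) (x y : V) (q : ℕ) : Prop :=
  ∃ s ≤ q, ∃ e, Wk G univ ω x y s e

lemma no_hub (hK : K4f G) {k : ℕ} (hk : 22 ≤ k) (hn : Fintype.card V ≤ 2 * k)
    (hH : ∀ S, Hole G S → k ≤ S.card) (h1 : m2 G univ = 4 * Fintype.card V)
    {ω : V → V → ZMod 2} (hω : Coc G univ ω) (hodd : OddW G univ ω) (v : V) :
    (NS G univ v).card < k := by
  classical
  by_contra hL
  have hS : ∀ T : Finset V, T.card < k → SE G T := fun T hT => SE_of_holefree fun U hU h => by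
    have := hH U h; have := card_le_card hU; omega
  obtain ⟨l, c, hc, -, hsh⟩ := min_odd hω hodd
  have hl : k ≤ l := hc.card ▸ hH _ ⟨l, c, hc, rfl⟩
  have hw : ∀ x q, 6 * q < l →
      ((range l).filter fun i => Near G ω x (c i) q).card ≤ 2 * q + 1 := by
    intro x q hq
    refine window (l := l) (by omega) (fun i hi => mem_range.mp (mem_filter.mp hi).1) ?_
    intro i hi j hj hij
    obtain ⟨-, s, hs, e, w⟩ := mem_filter.mp hi
    obtain ⟨hj, s', hs', e', w'⟩ := mem_filter.mp hj
    have := hsh i j _ _ hij (mem_range.mp hj).le ((w.symm hω.1).trans w')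
    omega
  have hw1 : ∀ x, (((range l).image c).filter fun y => y = x ∨ G.Adj x y).card ≤ 3 := by
    intro x
    refine le_trans (card_le_card ?_) ((card_image_le (f := c)).trans (hw x 1 (by omega)))
    intro y hy
    obtain ⟨hy, h2⟩ := mem_filter.mp hy
    obtain ⟨i, hi, rfl⟩ := mem_image.mp hy
    refine mem_image_of_mem _ (mem_filter.mpr ⟨hi, ?_⟩)
    rcases h2 with rfl | h2
    exacts [⟨0, by omega, _, .refl _⟩, ⟨1, le_rfl, _, .single (mem_univ _) (mem_univ _) h2⟩]
  let C := (range l).image c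
  let B := C.filter fun x => ¬ Near G ω v x 2
  have hB : l ≤ B.card + 5 := by
    have h2 := card_filter_add_card_filter_not (s := C) fun x => Near G ω v x 2
    have h3 : (C.filter fun x => Near G ω v x 2).card ≤ 5 := by
      rw [filter_image]
      exact card_image_le.trans (hw v 2 (by omega))
    have h4 : C.card = l := hc.card
    simp only [B]; omega
  let L := NS G univ v
  have hLv : ∀ x ∈ L, G.Adj v x := fun x hx => ((mem_NS G).mp hx).2
  have hvL : v ∉ L := fun h => (hLv v h).ne rfl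
  have hD : ∀ x ∈ insert v L, ∃ s ≤ 1, ∃ e, Wk G univ ω v x s e := fun x hx => by
    rcases mem_insert.mp hx with rfl | hx
    exacts [⟨0, by omega, _, .refl _⟩, ⟨1, le_rfl, _, .single (mem_univ _) (mem_univ _) (hLv x hx)⟩]
  have hBD : Disjoint (insert v L) B := disjoint_left.mpr fun x hx h => by
    obtain ⟨s, hs, e, w⟩ := hD x hx
    exact (mem_filter.mp h).2 ⟨s, by omega, e, w⟩
  have hBD' : ∑ b ∈ B, (NS G (insert v L) b).card = 0 := sum_eq_zero fun b hb =>
    card_eq_zero.mpr (filter_eq_empty_iff.mpr fun x hx h => by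
      obtain ⟨s, hs, e, w⟩ := hD x hx
      exact (mem_filter.mp hb).2 ⟨s + 1, by omega, _, w.step (mem_univ _) (mem_univ _) h.symm⟩)
  let Y := (insert v L ∪ B)ᶜ
  have c1 : Fintype.card V = L.card + 1 + B.card + Y.card := by
    rw [← card_insert_of_notMem hvL, ← card_union_of_disjoint hBD, card_add_card_compl]
  have c2 : k ≤ L.card := not_lt.mp hL
  have e1 := m2_union (G := G) (disjoint_compl_right (a := insert v L ∪ B))
  have e2 := m2_union (G := G) hBD
  have e3 := m2_erase G (mem_insert_self v L)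
  have e4 : NS G (insert v L) v = L := by
    ext x; simp only [mem_NS, mem_insert, L, mem_univ, true_and]
    exact ⟨fun h => h.2, fun h => ⟨Or.inr h, h⟩⟩
  rw [union_compl] at e1
  rw [erase_insert hvL, e4] at e3
  have e5 := forest_big hK hS (L.card + 1 - k) (by omega) L hLv (card_pos.mp (by omega)) (by omega)
  have e6 : m2 G B ≤ B.card * 2 := by
    rw [m2_eq, ← smul_eq_mul]
    refine sum_le_card_nsmul _ _ _ fun x hx => ?_
    have h2 : insert x (NS G B x) ⊆ C.filter fun y => y = x ∨ G.Adj x y :=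
      insert_subset (mem_filter.mpr ⟨(mem_filter.mp hx).1, Or.inl rfl⟩) fun y hy => by
        rw [mem_NS] at hy
        exact mem_filter.mpr ⟨(mem_filter.mp hy.1).1, Or.inr hy.2⟩
    have h3 := (card_le_card h2).trans (hw1 x)
    rw [card_insert_of_notMem fun h => ((mem_NS G).mp h).2.ne rfl] at h3
    omega
  have e7 : m2 G Y ≤ Y.card * 3 := by
    rw [m2_eq, ← smul_eq_mul]
    refine sum_le_card_nsmul _ _ _ fun x hx => ?_
    have h2 : NS G Y x ⊆ Y.erase x := fun y hy => by
      rw [mem_NS] at hy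
      exact mem_erase.mpr ⟨hy.2.ne', hy.1⟩
    have := card_le_card h2
    have := card_erase_of_mem hx
    omega
  have e8 : ∑ y ∈ Y, (NS G (insert v L ∪ B) y).card ≤ Y.card * 5 := by
    rw [← smul_eq_mul]
    refine sum_le_card_nsmul _ _ _ fun y hy => ?_
    simp only [Y, mem_compl, mem_union, mem_insert, not_or] at hy
    have hvy : ¬ G.Adj v y := fun h => hy.1.2 ((mem_NS G).mpr ⟨mem_univ _, h⟩)
    have h2 : NS G (insert v L ∪ B) y ⊆ NS G (insert y L) y ∪ C.filter fun z => z = y ∨ G.Adj y z := by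
      intro z hz
      simp only [mem_NS, mem_union, mem_insert, mem_filter] at hz ⊢
      rcases hz.1 with (rfl | h) | h
      exacts [absurd hz.2.symm hvy, Or.inl ⟨Or.inr h, hz.2⟩,
        Or.inr ⟨(mem_filter.mp h).1, Or.inr hz.2⟩]
    have h3 : Simp G (insert y L) y := ⟨mem_insert_self _ _, fun a ha b hb h3 h4 hab =>
      no_c4 hS (by omega) (hLv a ((mem_insert.mp ha).resolve_left h3.ne'))
        (hLv b ((mem_insert.mp hb).resolve_left h4.ne')) h3 h4 hvy (Ne.symm hy.1.1) hab⟩
    have := (card_le_card h2).trans (card_union_le _ _)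
    have := h3.card_le G hK
    have := hw1 y
    simp only [C] at *
    omega
  simp only [Y] at *
  omega

end Pool.Agent.Lib.MP_8cb124_co
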