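import Pool.Agent.Lib.MP_8cb124_co.Walk

open Finset PowerSeries

namespace Pool.Agent.Lib.MP_8cb124_co

variable {V : Type} [Fintype V] [DecidableEq V] {G : SimpleGraph V} [DecidableRel G.Adj]

lemma Cyc.ZS {l : ℕ} {c : ℕ → V} (h : Cyc G l c) :
    ZS (EE G ((range l).image c)) = (1 - X) ^ l + X ^ (l - 1) * ((-1) ^ l * (1 - X)) := by
  let F := (range l).image fun i => (c i, c (i + 1))
  have h4 := h.four
  have hm : ∀ i ≤ l, c i ∈ (range l).image c := fun i hi => by
    rcases hi.lt_or_eq with hi | rfl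
    · exact mem_image_of_mem _ (mem_range.mpr hi)
    · rw [h.close]; exact mem_image_of_mem _ (mem_range.mpr (by omega))
  have hsub : F ⊆ EE G ((range l).image c) := image_subset_iff.mpr fun i hi => by
    rw [mem_range] at hi
    exact (mem_EE G).mpr ⟨hm i hi.le, hm _ hi, h.adj i hi⟩
  have h1 : Zp (EE G ((range l).image c)) = Zp F := Zp_congr fun x => by
    unfold Np
    congr 1
    refine filter_congr fun σ _ => ⟨fun h e he => h e (hsub he), fun h1 => ?_⟩
    have h2 : ∀ i j, i < j → j < l → G.Adj (c i) (c j) → σ (c i) ≠ σ (c j) := by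
      intro i j hij hj ha
      rcases h.chord i j hij hj ha with rfl | ⟨rfl, rfl⟩
      · exact h1 (c i, c (i + 1)) (mem_image_of_mem _ (mem_range.mpr (by omega)))
      · rw [← h.close]
        exact (h1 (c j, c (j + 1)) (mem_image_of_mem _ (mem_range.mpr hj))).symm
    rintro ⟨a, b⟩ he
    obtain ⟨ha, hb, hab⟩ := (mem_EE G).mp he
    obtain ⟨i, hi, rfl⟩ := mem_image.mp ha
    obtain ⟨j, hj, rfl⟩ := mem_image.mp hb
    rw [mem_range] at hi hj
    rcases lt_trichotomy i j with h3 | rfl | h3
    exacts [h2 i j h3 hj hab, absurd rfl hab.ne, (h2 j i h3 hi hab.symm).symm]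
  have hinj : ∀ i < l, ∀ j < l, c i = c j → i = j := fun i hi j hj hij => by
    rcases lt_trichotomy i j with h1 | h1 | h1
    exacts [absurd hij (h.inj i j h1 hj), h1, absurd hij.symm (h.inj j i h1 hi)]
  have hF : F.card = l := by
    rw [card_image_of_injOn, card_range]
    intro i hi j hj hij
    rw [coe_range, Set.mem_Iio] at hi hj
    exact hinj i hi j hj (congrArg Prod.fst hij)
  have h2 : ∀ e ∈ F, l - 1 ≤ rk (F.erase e) := by
    intro e he
    obtain ⟨a, ha, rfl⟩ := mem_image.mp he
    rw [mem_range] at ha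
    rw [← h.card]
    refine rk_ge fun f hf => ?_
    have h3 : ∀ i < l, i ≠ a → f (c i) = f (c (i + 1)) := fun i hi hia =>
      hf (c i, c (i + 1)) (mem_erase.mpr ⟨fun h5 => hia (hinj i hi a ha (congrArg Prod.fst h5)),
        mem_image_of_mem _ (mem_range.mpr hi)⟩)
    have h5 : ∀ i ≤ a, f (c i) = f (c 0) := by
      intro i hi
      induction i with
      | zero => rfl
      | succ i ih => rw [← h3 i (by omega) (by omega), ih (by omega)]
    have h6 : ∀ d i, a < i → i + d = l → f (c i) = f (c 0) := by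
      intro d
      induction d with
      | zero => intro i _ hi; rw [show i = l from hi, h.close]
      | succ d ih => intro i h7 h8; rw [h3 i (by omega) (by omega), ih (i + 1) (by omega) (by omega)]
    have h7 : ∀ x ∈ (range l).image c, f x = f (c 0) := by
      intro x hx
      obtain ⟨i, hi, rfl⟩ := mem_image.mp hx
      rw [mem_range] at hi
      rcases le_or_gt i a with h8 | h8
      exacts [h5 i h8, h6 (l - i) i h8 (by omega)]
    intro x hx y hy
    rw [h7 x hx, h7 y hy]
  have h3 : ∀ A ∈ F.powerset.erase F, rk A = A.card := by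
    intro A hA
    rw [mem_erase, mem_powerset] at hA
    obtain ⟨e, he, heA⟩ := exists_of_ssubset (hA.2.ssubset_of_ne hA.1)
    have h5 : A ⊆ F.erase e := subset_erase.mpr ⟨hA.2, heA⟩
    have h6 := rk_union_le A (F.erase e \ A)
    have h7 := rk_le_card (F.erase e \ A)
    have h8 := card_sdiff_add_card_eq_card h5
    rw [union_sdiff_of_subset h5] at h6
    have := h2 e he
    have := card_erase_of_mem he
    have := rk_le_card A
    omega
  have h5 : rk F = l - 1 := by
    refine le_antisymm ?_ ?_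
    · rw [← h.card]
      exact rk_le ⟨_, hm 0 (by omega)⟩ (hsub.trans (filter_subset _ _))
    · obtain ⟨e, he⟩ := card_pos.mp (by omega : 0 < F.card)
      have h6 : cc F ≤ cc (F.erase e) := Submodule.finrank_mono fun f hf e he =>
        hf e (mem_of_mem_erase he)
      have := h2 e he
      unfold rk at *; omega
  have h6 := prod_one_add (f := fun _ : V × V => (-X : ℚ⟦X⟧)) F
  rw [prod_const, hF, ← add_sum_erase _ _ (mem_powerset_self F), prod_const, hF] at h6
  rw [MP_8cb124_co.ZS, h1, ← MP_8cb124_co.ZS, ZS_eq, ← add_sum_erase _ _ (mem_powerset_self F), h5,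
    hF, sub_eq_add_neg, h6, sum_congr rfl fun A hA => by rw [h3 A hA, ← neg_pow, ← prod_const]]
  obtain ⟨m, rfl⟩ : ∃ m, l = m + 1 := ⟨l - 1, by omega⟩
  rw [neg_pow X, add_tsub_cancel_right]
  ring

lemma LD_pert (r : ℕ) (hr : 0 < r) (g : ℚ⟦X⟧) :
    X ^ (r + 1) ∣ LD (1 + X ^ r * g) - (r : ℚ⟦X⟧) * C (constantCoeff g) * X ^ r := by
  have h1 : LD (1 + X ^ r * g) - (r : ℚ⟦X⟧) * C (constantCoeff g) * X ^ r =
      X ^ r * ((th g + (r : ℚ⟦X⟧) * g) * (1 + X ^ r * g)⁻¹ - (r : ℚ⟦X⟧) * C (constantCoeff g)) := by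
    have : th 1 = 0 := by simp [th]
    rw [LD, th_add, th_mul, th_X_pow, this]; ring
  rw [h1, pow_succ]
  refine mul_dvd_mul_left _ (X_dvd_iff.mpr ?_)
  simp [th, hr.ne']

lemma LD_pow (l : ℕ) : LD ((1 - X) ^ l) = l * lam 1 := by
  induction l with
  | zero => simp [LD_one]
  | succ l ih =>
    rw [pow_succ, LD_mul (by simp) (by simp), ih, lam]
    push_cast; rw [one_mul]; ring

omit [Fintype V] [DecidableRel G.Adj] in
lemma small_SE (S : Finset V) (h : S.card < 4) : SE G S :=
  SE_of_holefree fun T hT h1 => by have := h1.four; have := card_le_card hT; omega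

lemma Hole.del (hK : K4f G) {S : Finset V} (h : Hole G S) :
    X ^ S.card ∣ del G S - C (6 * (S.card - 1) * (-1) ^ S.card : ℚ) * X ^ (S.card - 1) := by
  obtain ⟨l, c, h1, rfl⟩ := h
  have h4 := h1.four
  rw [h1.card]
  let g : ℚ⟦X⟧ := (-1) ^ l * (1 - X) * ((1 - X) ^ l)⁻¹
  have h2 : LL G ((range l).image c) = l * lam 1 + LD (1 + X ^ (l - 1) * g) := by
    have h3 := PowerSeries.mul_inv_cancel ((1 - X : ℚ⟦X⟧) ^ l) (by simp)
    rw [LL, h1.ZS, ← LD_pow, ← LD_mul (by simp) (by simp [show l - 1 ≠ 0 by omega])]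
    congr 1
    simp only [g]
    linear_combination (-X ^ (l - 1) * ((-1) ^ l * (1 - X))) * h3
  have h3 := LD_pert (l - 1) (by omega) g
  rw [Nat.sub_add_cancel (by omega), show constantCoeff g = (-1) ^ l by simp [g]] at h3
  have h5 : X ^ 3 ∣ LD (1 + X ^ (l - 1) * g) := by
    have := dvd_add ((pow_dvd_pow X (by omega : 3 ≤ l)).trans h3)
      ((pow_dvd_pow X (by omega : 3 ≤ l - 1)).mul_left (((l - 1 : ℕ) : ℚ⟦X⟧) * C ((-1) ^ l)))
    rwa [sub_add_cancel] at this
  have h6 := del_dvd G hK (W := (range l).image c) le_rfl fun S _ hS => small_SE S hS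
  obtain ⟨h7, h8⟩ := lam_indep (a := 6 * l - 3 * m2 G ((range l).image c))
    (b := - t6 G ((range l).image c)) (by
      convert dvd_sub h6 (h5.mul_right 6) using 1
      rw [MP_8cb124_co.del, h2]; push_cast; ring)
  have h9 : m2 G ((range l).image c) = 2 * l := by omega
  have h10 : t6 G ((range l).image c) = 0 := by omega
  convert h3.mul_right 6 using 1
  rw [MP_8cb124_co.del, h2, h9, h10, Nat.cast_sub (by omega)]
  simp only [map_mul, map_sub, map_ofNat, map_natCast, map_one]
  push_cast; ring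

open Classical in
/-- number of holes of a given size -/
noncomputable def hc (G : SimpleGraph V) (j : ℕ) : ℕ :=
  (univ.filter fun S : Finset V => Hole G S ∧ S.card = j).card

lemma del_hc (hK : K4f G) {j : ℕ} (hj : 4 ≤ j) (h : ∀ S, Hole G S → j ≤ S.card) :
    X ^ j ∣ del G univ - C (hc G j * (6 * (j - 1) * (-1) ^ j) : ℚ) * X ^ (j - 1) := by
  classical
  have h1 := del_mod G hK (W := univ) hj fun S _ hS => SE_of_holefree fun T hT h1 => by
    have := h T h1; have := card_le_card hT; omega
  have h2 : X ^ j ∣ ∑ S ∈ univ.powerset.filter (fun S => S.card = j), (del G S -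
      if Hole G S then C (6 * (j - 1) * (-1) ^ j : ℚ) * X ^ (j - 1) else 0) := by
    refine dvd_sum fun S hS => ?_
    obtain rfl := (mem_filter.mp hS).2
    split_ifs with h2
    · exact h2.del hK
    · rw [del_SE G hK S (SE_of_holefree fun T hT h1 => h2 ?_)]
      · simp
      · rwa [← eq_of_subset_of_card_le hT (h T h1)]
  convert dvd_add h1 h2 using 1
  rw [sum_sub_distrib, ← sum_filter, sum_const, filter_filter, powerset_univ, hc, map_mul,
    map_natCast, nsmul_eq_mul, filter_congr fun S _ => and_comm]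
  ring

lemma transfer {W : Type} [Fintype W] [DecidableEq W] {H : SimpleGraph W} [DecidableRel H.Adj]
    (hG : K4f G) (hH : K4f H) (h : LL G univ = LL H univ) {k : ℕ} (hk : 4 ≤ k)
    (hH' : ∀ S, Hole H S → k ≤ S.card) : m2 G univ = m2 H univ ∧ t6 G univ = t6 H univ ∧
      (∀ S, Hole G S → k ≤ S.card) ∧ hc G k = hc H k := by
  classical
  obtain ⟨h1, h2⟩ := lam_indep (a := 3 * m2 H univ - 3 * m2 G univ) (b := t6 H univ - t6 G univ) (by
    convert dvd_sub (del_dvd G hG (W := univ) le_rfl fun S _ hS => small_SE S hS)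
      (del_dvd H hH (W := univ) le_rfl fun S _ hS => small_SE S hS) using 1
    rw [del, del, h]; push_cast; ring)
  have h3 : m2 G univ = m2 H univ := by omega
  have h4 : t6 G univ = t6 H univ := by omega
  have h5 : del G univ = del H univ := by rw [del, del, h, h3, h4]
  have h6 : ∀ j, 4 ≤ j → j ≤ k → (∀ S, Hole G S → j ≤ S.card) → hc G j = hc H j := by
    intro j hj hjk h6
    have h7 := dvd_sub (del_hc hG hj h6) (del_hc hH hj fun S hS => hjk.trans (hH' S hS))
    rw [h5, sub_sub_sub_cancel_left, ← sub_mul, ← map_sub, X_pow_dvd_iff] at h7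
    have h8 := h7 (j - 1) (by omega)
    rw [coeff_C_mul, coeff_X_pow, if_pos rfl, mul_one, ← sub_mul, mul_eq_zero] at h8
    rcases h8 with h8 | h8
    · exact_mod_cast (sub_eq_zero.mp h8).symm
    · have : (4 : ℚ) ≤ j := by exact_mod_cast hj
      exact absurd h8 (mul_ne_zero (by linarith) (by positivity))
  have h7 : ∀ j ≤ k, ∀ S, Hole G S → j ≤ S.card := by
    intro j
    induction j with
    | zero => simp
    | succ j ih =>
      intro hj S hS
      refine lt_of_le_of_ne (ih (by omega) S hS) fun h7 => ?_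
      have h8 := h6 j (h7 ▸ hS.four) (by omega) (ih (by omega))
      have h9 : hc H j = 0 := card_eq_zero.mpr (filter_eq_empty_iff.mpr fun T _ hT => by
        have := hH' T hT.1; omega)
      rw [h9, hc, card_eq_zero, filter_eq_empty_iff] at h8
      exact h8 (mem_univ S) ⟨hS, h7.symm⟩
  exact ⟨h3, h4, h7 k le_rfl, h6 k hk le_rfl (h7 k le_rfl)⟩

lemma Hole.not_SE (hK : K4f G) {S : Finset V} (h : Hole G S) : ¬ SE G S := by
  intro h1
  have h2 := h.del hK
  have h4 := h.four
  rw [del_SE G hK S h1, zero_sub, dvd_neg, X_pow_dvd_iff] at h2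
  have h3 := h2 (S.card - 1) (by omega)
  rw [coeff_C_mul, coeff_X_pow, if_pos rfl, mul_one] at h3
  have : (4 : ℚ) ≤ S.card := by exact_mod_cast h4
  exact absurd h3 (mul_ne_zero (by linarith) (by positivity))

end Pool.Agent.Lib.MP_8cb124_co
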