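import Pool.Agent.Lib.MP_8cb124_co.End

open Finset

namespace Pool.Agent.Lib.MP_8cb124_co

lemma main_aux {V : Type} [Fintype V] [DecidableEq V] {G : SimpleGraph V} [DecidableRel G.Adj]
    {n : ℕ} [NeZero n] [DecidableRel (Sq n).Adj] (hn : 43 ≤ n) (hK : K4f G)
    (h : ∀ x, Np (EE G univ) x = Np (EE (Sq n) univ) x) : Nonempty (G ≃g Sq n) := by
  classical
  obtain ⟨h1, h2⟩ := Zp_transfer (EE_ne G univ) (EE_ne (Sq n) univ) h
  have h1' := h1
  rw [ZMod.card] at h1
  obtain ⟨t1, t2, t3, t4⟩ := transfer hK (Sq_K4f (n := n) (by omega)) (k := (n + 1) / 2)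
    (by rw [LL, LL, ZS, ZS, h2]) (by omega) fun S hS => by
      have := (Sq_hole_card (by omega) hS).1; omega
  rw [Sq_m2 (by omega)] at t1
  rw [Sq_t6 (by omega)] at t2
  have hV : 0 < Fintype.card V := by omega
  have hC : Conn G univ := by
    rw [← conn_iff hV, cc_eq_one_iff (EE_ne G univ) hV, h2, h1', ← cc_eq_one_iff (EE_ne _ univ)
      (h1' ▸ hV), conn_iff (h1' ▸ hV)]
    exact Sq_conn (by omega)
  have hg : Good G univ := ⟨univ_nonempty_iff.mpr (Fintype.card_pos_iff.mp hV),
    by rw [t1, card_univ, h1], by rw [t2, card_univ, h1], hC⟩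
  obtain ⟨ω, hω, hω'⟩ := exists_coc hg.ne hg.e hg.t
  have hd := no_hub hK (k := (n + 1) / 2) (by omega) (by omega) t3 (by rw [t1, h1]) hω
    (odd_of_coc hg.ne hC hω hω')
  have hF : LF G := fun v T hT hne => forest hK T hT (SE_of_holefree fun U hU hU' => by
    have := t3 U hU'
    have := card_le_card (hU.trans fun x hx => (mem_NS G).mpr ⟨mem_univ x, hT x hx⟩)
    have := hd v
    omega) hne
  obtain ⟨S, hS, hmin⟩ := exists_min_image (univ.filter fun S => Good G S) card
    ⟨univ, mem_filter.mpr ⟨mem_univ _, hg⟩⟩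
  have hS' := (mem_filter.mp hS).2
  obtain ⟨L, y, B, hs⟩ := strip hS' hF fun v hv hg' => by
    have := hmin _ (mem_filter.mpr ⟨mem_univ _, hg'⟩)
    have := card_erase_add_one hv
    omega
  obtain ⟨rfl, hB⟩ := hs.main hS' (k := (n + 1) / 2) (by omega) (by omega) t3 fun h3 => by
    rw [t4]; exact Sq_hc (by omega) (by omega)
  obtain rfl : S = univ := eq_univ_of_card _ (le_antisymm (card_le_univ S) hs.le)
  rw [h1] at hs
  let φ : ZMod n → V := fun a => y a.val
  have p1 : ∀ i : ℕ, φ i = y i := fun i => by simp only [φ, ZMod.val_natCast, hs.mod]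
  have p2 : Function.Injective φ := fun a b hab => ZMod.val_injective n
    (hs.inj' hS' hab (by have := b.val_lt; omega) (by have := a.val_lt; omega))
  have p3 : ∀ a, G.Adj (φ (a + 1)) (φ a) ∧ G.Adj (φ (a + 2)) (φ a) := fun a => by
    have e1 := hs.adj1 a.val
    have e2 := hs.adj2 a.val
    rw [hB, ← p1, ← p1] at e2
    rw [← p1, ← p1] at e1
    simpa using And.intro e1 e2
  refine ⟨SimpleGraph.Iso.symm ⟨Equiv.ofBijective φ
    ((Fintype.bijective_iff_injective_and_card φ).mpr ⟨p2, h1'.symm⟩), fun {a b} => ?_⟩⟩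
  change G.Adj (φ a) (φ b) ↔ _
  rw [Sq, SimpleGraph.fromRel_adj]
  constructor
  · intro hab
    obtain ⟨i, h3, h4⟩ := hs.all _ (mem_univ _) _ (mem_univ _) hab
    have hne : a ≠ b := fun h => hab.ne (congrArg φ h)
    simp only [hB, ← p1, mem_insert, mem_singleton, p2.eq_iff] at h3 h4
    refine ⟨hne, ?_⟩
    rcases h3 with rfl | rfl | rfl <;> rcases h4 with rfl | rfl | rfl <;>
      first | exact absurd rfl hne | (push_cast; ring_nf; simp)
  · rintro ⟨-, (h3 | h3) | (h3 | h3)⟩
    · rw [show b = a + 1 by linear_combination h3]; exact (p3 a).1.symm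
    · rw [show b = a + 2 by linear_combination h3]; exact (p3 a).2.symm
    · rw [show a = b + 1 by linear_combination h3]; exact (p3 b).1
    · rw [show a = b + 2 by linear_combination h3]; exact (p3 b).2

lemma Sq_three {n : ℕ} (h : 3 ∣ n) : Nonempty ((Sq n).Coloring (Fin 3)) := by
  refine ⟨SimpleGraph.Coloring.mk (α := ZMod 3) (ZMod.castHom h (ZMod 3)) fun {a b} hab he => ?_⟩
  rw [Sq, SimpleGraph.fromRel_adj] at hab
  rcases hab.2 with (h1 | h1) | (h1 | h1) <;>
    have h2 := congrArg (ZMod.castHom h (ZMod 3)) h1 <;>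
    rw [map_sub, he, sub_self] at h2
  · rw [map_one] at h2; exact absurd h2 (by decide)
  · rw [map_ofNat] at h2; exact absurd h2 (by decide)
  · rw [map_one] at h2; exact absurd h2 (by decide)
  · rw [map_ofNat] at h2; exact absurd h2 (by decide)

theorem main {n : ℕ} (hn : 43 ≤ n) (V : Type) [Finite V] (G : SimpleGraph V)
    (hK : 3 ∣ n ∨ G.CliqueFree 4)
    (h : ∀ k : ℕ, Nat.card (G.Coloring (Fin k)) = Nat.card ((Sq n).Coloring (Fin k))) :
    Nonempty (G ≃g Sq n) := by
  classical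
  have : NeZero n := ⟨by omega⟩
  have := Fintype.ofFinite V
  have h1 : G.CliqueFree 4 := hK.elim (fun h3 => by
    have := Sq_three h3
    have h2 : 0 < Nat.card (G.Coloring (Fin 3)) := h 3 ▸ Nat.card_pos
    exact SimpleGraph.Colorable.cliqueFree (Nat.card_pos_iff.mp h2).1 (by omega)) id
  refine main_aux hn (fun a b c d h2 h3 h4 h5 h6 h7 => h1 {a, b, c, d} ?_) fun x => by
    rw [← card_coloring, ← card_coloring, h]
  rw [SimpleGraph.isNClique_iff]
  refine ⟨by simp [SimpleGraph.isClique_insert, *], ?_⟩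
  rw [card_insert_of_notMem (by simp [h2.ne, h3.ne, h4.ne]),
    card_insert_of_notMem (by simp [h5.ne, h6.ne]), card_pair h7.ne]

end Pool.Agent.Lib.MP_8cb124_co
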