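import Pool.Agent.Lib.MP_8cb124_co.Clus

open Finset PowerSeries

namespace Pool.Agent.Lib.MP_8cb124_co

variable {V : Type} (G : SimpleGraph V) [DecidableRel G.Adj]

/-- neighbours inside S -/
def NS (S : Finset V) (v : V) : Finset V := S.filter (G.Adj v)

lemma mem_NS {S : Finset V} {v a : V} : a ∈ NS G S v ↔ a ∈ S ∧ G.Adj v a := mem_filter

/-- twice the number of edges -/
def m2 (S : Finset V) : ℕ := ∑ a ∈ S, ∑ b ∈ S, if G.Adj a b then 1 else 0

/-- six times the number of triangles -/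
def t6 (S : Finset V) : ℕ :=
  ∑ a ∈ S, ∑ b ∈ S, ∑ c ∈ S, if G.Adj a b ∧ G.Adj a c ∧ G.Adj b c then 1 else 0

/-- simplicial vertex -/
def Simp (S : Finset V) (v : V) : Prop :=
  v ∈ S ∧ ∀ a ∈ S, ∀ b ∈ S, G.Adj v a → G.Adj v b → a ≠ b → G.Adj a b

/-- every nonempty subset has a simplicial vertex -/
def SE (S : Finset V) : Prop := ∀ T ⊆ S, T.Nonempty → ∃ v, Simp G T v

/-- no four mutually adjacent vertices -/
def K4f : Prop := ∀ a b c d, G.Adj a b → G.Adj a c → G.Adj a d → G.Adj b c → G.Adj b d → ¬ G.Adj c d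

lemma m2_eq (S : Finset V) : m2 G S = ∑ v ∈ S, (NS G S v).card := by
  simp only [m2, NS, card_filter]

lemma m2_NS (S : Finset V) (v : V) : m2 G (NS G S v) =
    ∑ b ∈ S, ∑ c ∈ S, if G.Adj v b ∧ G.Adj v c ∧ G.Adj b c then 1 else 0 := by
  simp only [m2, NS, sum_filter]
  refine sum_congr rfl fun b _ => ?_
  by_cases h : G.Adj v b
  · simp only [h, if_true, true_and, ite_and]
  · simp [h]

lemma t6_eq (S : Finset V) : t6 G S = ∑ v ∈ S, m2 G (NS G S v) := by
  simp only [t6, m2_NS]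

variable [DecidableEq V]

lemma NS_erase (S : Finset V) (v : V) : NS G (S.erase v) v = NS G S v := by
  ext a; simp only [mem_NS, mem_erase]
  exact ⟨fun h => ⟨h.1.2, h.2⟩, fun h => ⟨⟨h.2.ne', h.1⟩, h.2⟩⟩

lemma m2_erase {S : Finset V} {v : V} (hv : v ∈ S) :
    m2 G S = m2 G (S.erase v) + 2 * (NS G S v).card := by
  rw [← NS_erase, NS, card_filter]
  conv_lhs => rw [← insert_erase hv]
  simp only [m2, sum_insert (notMem_erase v S), sum_add_distrib, G.irrefl, if_false,
    G.adj_comm _ v]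
  omega

lemma t6_erase {S : Finset V} {v : V} (hv : v ∈ S) :
    t6 G S = t6 G (S.erase v) + 3 * m2 G (NS G S v) := by
  rw [← NS_erase, m2_NS]
  conv_lhs => rw [← insert_erase hv]
  have h1 : ∀ a b, (G.Adj v a ∧ G.Adj a b ∧ G.Adj v b) = (G.Adj v a ∧ G.Adj v b ∧ G.Adj a b) :=
    fun a b => propext (by tauto)
  have h2 : ∀ a b, (G.Adj a b ∧ G.Adj v a ∧ G.Adj v b) = (G.Adj v a ∧ G.Adj v b ∧ G.Adj a b) :=
    fun a b => propext (by tauto)
  simp only [t6, sum_insert (notMem_erase v S), sum_add_distrib, G.irrefl, if_false,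
    G.adj_comm _ v, false_and, and_false, sum_const_zero, h1, h2]
  omega

omit [DecidableEq V] in
lemma Simp.m2 {S : Finset V} {v : V} (h : Simp G S v) :
    m2 G (NS G S v) + (NS G S v).card = (NS G S v).card * (NS G S v).card := by
  classical
  rw [m2_eq, card_eq_sum_ones (NS G S v), ← sum_add_distrib, ← card_eq_sum_ones, ← smul_eq_mul,
    ← sum_const]
  refine sum_congr rfl fun a ha => ?_
  have : NS G (NS G S v) a = (NS G S v).erase a := by
    ext b; simp only [mem_NS, mem_erase] at *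
    exact ⟨fun h => ⟨h.2.ne', h.1⟩, fun hb => ⟨hb.2, h.2 a ha.1 b hb.2.1 ha.2 hb.2.2 hb.1.symm⟩⟩
  rw [this, card_erase_add_one ha]

omit [DecidableEq V] in
lemma Simp.card_le {S : Finset V} {v : V} (h : Simp G S v) (hK : K4f G) :
    (NS G S v).card ≤ 2 := by
  classical
  by_contra h1
  obtain ⟨a, b, c, ha, hb, hc, hab, hac, hbc⟩ := two_lt_card_iff.mp (not_le.mp h1)
  rw [mem_NS] at ha hb hc
  exact hK v a b c ha.2 hb.2 hc.2 (h.2 a ha.1 b hb.1 ha.2 hb.2 hab)
    (h.2 a ha.1 c hc.1 ha.2 hc.2 hac) (h.2 b hb.1 c hc.1 hb.2 hc.2 hbc)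

variable [Fintype V]

lemma Np_erase {S : Finset V} {v : V} (h : Simp G S v) (x : ℕ) :
    x * Np (EE G S) x + (NS G S v).card * Np (EE G (S.erase v)) x =
      x * Np (EE G (S.erase v)) x := by
  let φ : (V → Fin x) × Fin x → (V → Fin x) × Fin x := fun p => (Function.update p.1 v p.2, p.1 v)
  have hφ : Function.Involutive φ := fun p => by simp [φ]
  have h1 : x * Np (EE G S) x = ∑ p : (V → Fin x) × Fin x,
      if ∀ e ∈ EE G S, (φ p).1 e.1 ≠ (φ p).1 e.2 then 1 else 0 := by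
    refine Eq.trans ?_ (Equiv.sum_comp hφ.toPerm
      fun p => if ∀ e ∈ EE G S, p.1 e.1 ≠ p.1 e.2 then 1 else 0).symm
    rw [Fintype.sum_prod_type, Np, card_filter, mul_sum]
    refine sum_congr rfl fun σ _ => ?_
    simp
  rw [h1, Fintype.sum_prod_type, Np, card_filter, mul_sum, mul_sum, ← sum_add_distrib]
  refine sum_congr rfl fun σ _ => ?_
  have h2 : ∀ c, (∀ e ∈ EE G S, (φ (σ, c)).1 e.1 ≠ (φ (σ, c)).1 e.2) ↔
      (∀ e ∈ EE G (S.erase v), σ e.1 ≠ σ e.2) ∧ c ∉ (NS G S v).image σ := by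
    intro c
    simp only [φ, mem_EE, mem_erase, mem_image, mem_NS, not_exists, not_and]
    constructor
    · intro h3
      refine ⟨fun e he => ?_, fun a ha hc => ?_⟩
      · have := h3 e ⟨he.1.2, he.2.1.2, he.2.2⟩
        rwa [Function.update_of_ne he.1.1, Function.update_of_ne he.2.1.1] at this
      · have := h3 (a, v) ⟨ha.1, h.1, ha.2.symm⟩
        rw [Function.update_of_ne ha.2.ne', Function.update_self] at this
        exact this hc
    · rintro ⟨h3, h4⟩ ⟨a, b⟩ ⟨ha, hb, hab⟩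
      by_cases hav : a = v
      · subst hav
        rw [Function.update_self, Function.update_of_ne hab.ne']
        exact fun hc => h4 b ⟨hb, hab⟩ hc.symm
      · by_cases hbv : b = v
        · subst hbv
          rw [Function.update_self, Function.update_of_ne hab.ne]
          exact h4 a ⟨ha, hab.symm⟩
        · rw [Function.update_of_ne hav, Function.update_of_ne hbv]
          exact h3 (a, b) ⟨⟨hav, ha⟩, ⟨hbv, hb⟩, hab⟩
  simp only [h2]
  by_cases h3 : ∀ e ∈ EE G (S.erase v), σ e.1 ≠ σ e.2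
  · have h4 : ((NS G S v).image σ).card = (NS G S v).card := by
      refine card_image_of_injOn fun a ha b hb hab => ?_
      rw [mem_coe, mem_NS] at ha hb
      by_contra hne
      exact h3 (a, b) ((mem_EE G).mpr ⟨mem_erase.mpr ⟨ha.2.ne', ha.1⟩,
        mem_erase.mpr ⟨hb.2.ne', hb.1⟩, h.2 a ha.1 b hb.1 ha.2 hb.2 hne⟩) hab
    simp only [if_pos h3, and_iff_right h3, mul_one]
    rw [← card_filter, ← h4, add_comm]
    have := card_filter_add_card_filter_not (s := univ) fun c => c ∈ (NS G S v).image σ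
    rwa [filter_univ_mem, card_univ, Fintype.card_fin] at this
  · simp only [h3, false_and, if_false, sum_const_zero, mul_zero, add_zero]

lemma Zp_erase {S : Finset V} {v : V} (h : Simp G S v) :
    Zp (EE G S) = Zp (EE G (S.erase v)) * (1 - ((NS G S v).card : Polynomial ℚ) * Polynomial.X) := by
  refine poly_ext fun x hx => ?_
  have h1 := congrArg (Nat.cast : ℕ → ℚ) (Np_erase G h x)
  push_cast at h1
  rw [Np_eq _ hx, Np_eq _ hx] at h1
  have hx' : (x : ℚ) ≠ 0 := by exact_mod_cast hx.ne'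
  simp only [Polynomial.eval_mul, Polynomial.eval_sub, Polynomial.eval_one, Polynomial.eval_natCast,
    Polynomial.eval_X]
  refine mul_left_cancel₀ (pow_ne_zero (Fintype.card V + 1) hx') ?_
  have h2 : (x : ℚ) * (1 / x) = 1 := mul_one_div_cancel hx'
  linear_combination h1 + ((x : ℚ) ^ Fintype.card V * (NS G S v).card *
    (Zp (EE G (S.erase v))).eval (1 / x : ℚ)) * h2

/-- log derivative of a linear factor -/
noncomputable def lam (d : ℕ) : ℚ⟦X⟧ := LD (1 - (d : ℚ⟦X⟧) * X)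

omit [DecidableEq V] [Fintype V] in
lemma EE_ne (S : Finset V) : ∀ e ∈ EE G S, e.1 ≠ e.2 := fun _ he => ((mem_EE G).mp he).2.2.ne

lemma LL_erase {S : Finset V} {v : V} (h : Simp G S v) :
    LL G S = LL G (S.erase v) + lam (NS G S v).card := by
  rw [LL, LL, lam, ← LD_mul, ZS, ZS, Zp_erase G h]
  · simp only [← Polynomial.coeToPowerSeries.ringHom_apply, map_mul, map_sub, map_one, map_natCast]
    simp
  · rw [ZS_const (EE_ne G _)]; exact one_ne_zero
  · simp

/-- the deviation from the chordal value -/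
noncomputable def del (S : Finset V) : ℚ⟦X⟧ :=
  LL G S * 6 - (m2 G S : ℚ⟦X⟧) * (3 * lam 1) - (t6 G S : ℚ⟦X⟧) * (lam 2 - 2 * lam 1)

lemma del_SE (hK : K4f G) (S : Finset V) (h : SE G S) : del G S = 0 := by
  induction S using Finset.strongInduction with
  | H S ih =>
    rcases S.eq_empty_or_nonempty with rfl | hS
    · simp [del, LL, EE, ZS_eq, rk_empty, LD_one, m2, t6]
    obtain ⟨v, hv⟩ := h S subset_rfl hS
    have h1 := ih (S.erase v) (erase_ssubset hv.1) fun T hT => h T (hT.trans (erase_subset _ _))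
    have h2 := hv.m2
    have h3 := hv.card_le G hK
    have h4 : lam 0 = 0 := by simp [lam, LD_one]
    rw [del] at h1
    rw [del, LL_erase G hv, m2_erase G hv.1, t6_erase G hv.1]
    generalize (NS G S v).card = d at *
    generalize m2 G (NS G S v) = m at *
    push_cast
    interval_cases d
    · obtain rfl : m = 0 := by omega
      rw [h4]; linear_combination h1
    · obtain rfl : m = 0 := by omega
      linear_combination h1
    · obtain rfl : m = 2 := by omega
      linear_combination h1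

lemma dvd_mob_del {S : Finset V} (hS : 4 ≤ S.card) : X ^ (S.card - 1) ∣ mob (del G) S := by
  have h1 : (fun S => (m2 G S : ℚ⟦X⟧)) = fun S => ∑ p ∈ univ.filter
      (fun p : V × V => ({p.1, p.2} : Finset V) ⊆ S), if G.Adj p.1 p.2 then 1 else 0 := by
    funext S
    rw [m2, ← sum_product', Nat.cast_sum]
    refine sum_congr (by ext p; simp [insert_subset_iff]) fun p _ => by simp
  have h2 : (fun S => (t6 G S : ℚ⟦X⟧)) = fun S => ∑ p ∈ univ.filter
      (fun p : V × V × V => ({p.1, p.2.1, p.2.2} : Finset V) ⊆ S),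
      if G.Adj p.1 p.2.1 ∧ G.Adj p.1 p.2.2 ∧ G.Adj p.2.1 p.2.2 then 1 else 0 := by
    funext S
    have : ∑ p ∈ S ×ˢ S ×ˢ S, (if G.Adj p.1 p.2.1 ∧ G.Adj p.1 p.2.2 ∧ G.Adj p.2.1 p.2.2
      then 1 else 0) = t6 G S := by simp only [t6, sum_product]
    rw [← this, Nat.cast_sum]
    refine sum_congr (by ext p; simp [insert_subset_iff]) fun p _ => by simp
  have h3 : mob (fun S => (m2 G S : ℚ⟦X⟧)) S = 0 := by
    rw [h1, mob_supp]
    refine sum_eq_zero fun p hp => ?_
    have : ({p.1, p.2} : Finset V).card ≤ 2 := card_le_two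
    rw [(mem_filter.mp hp).2] at this; omega
  have h4 : mob (fun S => (t6 G S : ℚ⟦X⟧)) S = 0 := by
    rw [h2, mob_supp]
    refine sum_eq_zero fun p hp => ?_
    have : ({p.1, p.2.1, p.2.2} : Finset V).card ≤ 3 := card_le_three
    rw [(mem_filter.mp hp).2] at this; omega
  unfold del
  rw [mob_sub, mob_sub, mob_mul_const, mob_mul_const, mob_mul_const, h3, h4, zero_mul, zero_mul,
    sub_zero, sub_zero]
  exact (dvd_mob_LL G S).mul_right _

lemma del_mod (hK : K4f G) {W : Finset V} {j : ℕ} (hj : 4 ≤ j)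
    (h : ∀ S ⊆ W, S.card < j → SE G S) :
    X ^ j ∣ del G W - ∑ S ∈ W.powerset.filter (fun S => S.card = j), del G S := by
  rw [← mob_inv W (del G), sum_filter, ← sum_sub_distrib]
  refine dvd_sum fun S hS => ?_
  rw [mem_powerset] at hS
  rcases lt_trichotomy S.card j with h1 | h1 | h1
  · rw [if_neg h1.ne, mob_top, del_SE G hK S (h S hS h1)]
    · simp
    · exact fun B hB _ => del_SE G hK B (h B (hB.trans hS) ((card_le_card hB).trans_lt h1))
  · rw [if_pos h1, mob_top, sub_self]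
    · exact dvd_zero _
    · exact fun B hB hne => del_SE G hK B (h B (hB.trans hS)
        ((card_lt_card (hB.ssubset_of_ne hne)).trans_eq h1))
  · rw [if_neg h1.ne', sub_zero]
    exact (pow_dvd_pow _ (by omega)).trans (dvd_mob_del G (by omega))

lemma del_dvd (hK : K4f G) {W : Finset V} {j : ℕ} (hj : 4 ≤ j)
    (h : ∀ S ⊆ W, S.card < j → SE G S) : X ^ (j - 1) ∣ del G W := by
  rw [← mob_inv W (del G)]
  refine dvd_sum fun S hS => ?_
  rw [mem_powerset] at hS
  rcases lt_or_ge S.card j with h1 | h1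
  · rw [mob_top, del_SE G hK S (h S hS h1)]
    · simp
    · exact fun B hB _ => del_SE G hK B (h B (hB.trans hS) ((card_le_card hB).trans_lt h1))
  · exact (pow_dvd_pow _ (by omega)).trans (dvd_mob_del G (by omega))

lemma lam_eq (d : ℕ) : lam d = -((d : ℚ⟦X⟧) * X) * (1 - (d : ℚ⟦X⟧) * X)⁻¹ := by
  have : th (1 - (d : ℚ⟦X⟧) * X) = -((d : ℚ⟦X⟧) * X) := by
    simp only [th, map_sub, Derivation.leibniz, smul_eq_mul, Derivation.map_one_eq_zero,
      Derivation.map_natCast, PowerSeries.derivative_X]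
    ring
  rw [lam, LD, this]

lemma lam_indep {a b : ℤ} (h : X ^ 3 ∣ (a : ℚ⟦X⟧) * lam 1 + (b : ℚ⟦X⟧) * (lam 2 - 2 * lam 1)) :
    a = 0 ∧ b = 0 := by
  have h1 : ∀ d : ℕ, (X : ℚ⟦X⟧) ^ 3 ∣ lam d + (d : ℚ⟦X⟧) * X + (d : ℚ⟦X⟧) ^ 2 * X ^ 2 := by
    intro d
    have h2 := PowerSeries.mul_inv_cancel (1 - (d : ℚ⟦X⟧) * X) (by simp)
    refine ⟨-(d : ℚ⟦X⟧) ^ 3 * (1 - (d : ℚ⟦X⟧) * X)⁻¹, ?_⟩
    rw [lam_eq]
    linear_combination (-((d : ℚ⟦X⟧) * X) - (d : ℚ⟦X⟧) ^ 2 * X ^ 2) * h2
  have h2 : (X : ℚ⟦X⟧) ^ 3 ∣ C (a : ℚ) * X ^ 1 + C (a + 2 * b : ℚ) * X ^ 2 := by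
    have h3 := dvd_sub (dvd_add ((h1 1).mul_left ((a : ℚ⟦X⟧) - 2 * b)) ((h1 2).mul_left b)) h
    convert h3 using 1
    simp only [map_add, map_mul, map_intCast, map_ofNat]
    push_cast; ring
  rw [X_pow_dvd_iff] at h2
  have h3 := h2 1 (by omega)
  have h4 := h2 2 (by omega)
  rw [map_add, coeff_C_mul, coeff_C_mul, coeff_X_pow, coeff_X_pow] at h3 h4
  norm_num at h3 h4
  subst h3
  simpa using h4

end Pool.Agent.Lib.MP_8cb124_co
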