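import Pool.Agent.Lib.MP_8cb124_co.Inv

open Finset

namespace Pool.Agent.Lib.MP_8cb124_co

section
variable {V : Type} {G : SimpleGraph V}

/-- connectedness of the induced subgraph -/
def Conn (G : SimpleGraph V) (S : Finset V) : Prop :=
  ∀ U ⊆ S, U.Nonempty → (∀ a ∈ U, ∀ b ∈ S, G.Adj a b → b ∈ U) → S ⊆ U

variable [Fintype V] [DecidableEq V] [DecidableRel G.Adj]

lemma conn_iff (hV : 0 < Fintype.card V) : cc (EE G univ) = 1 ↔ Conn G univ := by
  have hne : (univ : Finset V).Nonempty := univ_nonempty_iff.mpr (Fintype.card_pos_iff.mp hV)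
  constructor
  · intro h U _ ⟨a, ha⟩ hU b _
    have h1 := cc_prod hne
    rw [card_univ] at h1
    have h2 : Uc ((univ : Finset V) ×ˢ univ) = Uc (EE G univ) :=
      Submodule.eq_of_le_of_finrank_eq (fun f hf e _ => hf e (by simp))
        (show cc _ = cc _ by omega)
    have h3 : (fun v => if v ∈ U then (1 : ZMod 2) else 0) ∈ Uc (EE G univ) := fun e he => by
      have h4 := ((mem_EE G).mp he).2.2
      exact if_congr ⟨fun h => hU _ h _ (mem_univ _) h4, fun h => hU _ h _ (mem_univ _) h4.symm⟩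
        rfl rfl
    rw [← h2] at h3
    have h4 := h3 (a, b) (by simp)
    by_contra hb
    simp [ha, hb] at h4
  · intro h
    have h1 := rk_ge (A := EE G univ) (S := univ) fun f hf a _ b hb => by
      have := h (univ.filter fun v => f v = f a) (subset_univ _) ⟨a, by simp⟩ (fun x hx y _ hxy => by
        rw [mem_filter] at hx ⊢
        exact ⟨mem_univ _, (hf (x, y) ((mem_EE G).mpr ⟨mem_univ _, mem_univ _, hxy⟩)).symm.trans hx.2⟩)
        hb
      exact (mem_filter.mp this).2.symm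
    have h2 := rk_le (A := EE G univ) hne (filter_subset _ _)
    have := cc_le (EE G univ)
    rw [rk, card_univ] at h1 h2
    omega

lemma card_coloring (x : ℕ) : Nat.card (G.Coloring (Fin x)) = Np (EE G univ) x := by
  let e : G.Coloring (Fin x) ≃ {σ : V → Fin x // ∀ e ∈ EE G univ, σ e.1 ≠ σ e.2} :=
    { toFun := fun C => ⟨C, fun e he => C.valid ((mem_EE G).mp he).2.2⟩
      invFun := fun σ => SimpleGraph.Coloring.mk σ.1 fun {a b} h =>
        σ.2 (a, b) ((mem_EE G).mpr ⟨mem_univ _, mem_univ _, h⟩)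
      left_inv := fun _ => rfl
      right_inv := fun _ => rfl }
  rw [Nat.card_congr e, Nat.card_eq_fintype_card, Fintype.card_subtype, Np]

end

/-- the square of the cycle -/
def Sq (n : ℕ) : SimpleGraph (ZMod n) :=
  SimpleGraph.fromRel fun i j : ZMod n => j - i = 1 ∨ j - i = 2

variable {n : ℕ}

lemma int_zero (hn : 7 ≤ n) (d : ℤ) (h1 : -6 ≤ d) (h2 : d ≤ 6) : (d : ZMod n) = 0 ↔ d = 0 := by
  rw [ZMod.intCast_zmod_eq_zero_iff_dvd]
  exact ⟨fun h => Int.eq_zero_of_abs_lt_dvd h (abs_lt.mpr ⟨by omega, by omega⟩), fun h => by simp [h]⟩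

lemma Sq_adjZ (hn : 7 ≤ n) (v : ZMod n) (a b : ℤ) (h1 : -4 ≤ b - a) (h2 : b - a ≤ 4) :
    (Sq n).Adj (v + a) (v + b) ↔ b - a = 1 ∨ b - a = 2 ∨ b - a = -1 ∨ b - a = -2 := by
  have e0 : v + a = v + b ↔ ((b - a : ℤ) : ZMod n) = 0 := by
    push_cast; constructor <;> intro h <;> linear_combination -h
  have e1 : v + b - (v + a) = 1 ↔ ((b - a - 1 : ℤ) : ZMod n) = 0 := by
    push_cast; constructor <;> intro h <;> linear_combination h
  have e2 : v + b - (v + a) = 2 ↔ ((b - a - 2 : ℤ) : ZMod n) = 0 := by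
    push_cast; constructor <;> intro h <;> linear_combination h
  have e3 : v + a - (v + b) = 1 ↔ ((b - a + 1 : ℤ) : ZMod n) = 0 := by
    push_cast; constructor <;> intro h <;> linear_combination -h
  have e4 : v + a - (v + b) = 2 ↔ ((b - a + 2 : ℤ) : ZMod n) = 0 := by
    push_cast; constructor <;> intro h <;> linear_combination -h
  rw [Sq, SimpleGraph.fromRel_adj, Ne, e0, e1, e2, e3, e4, int_zero hn, int_zero hn, int_zero hn,
    int_zero hn, int_zero hn] <;> omega

lemma Sq_adj (hn : 7 ≤ n) (v u : ZMod n) :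
    (Sq n).Adj v u ↔ ∃ a ∈ ({1, 2, -1, -2} : Finset ℤ), v + a = u := by
  constructor
  · intro h
    rw [Sq, SimpleGraph.fromRel_adj] at h
    rcases h.2 with (h | h) | (h | h)
    · exact ⟨1, by simp, by push_cast; linear_combination -h⟩
    · exact ⟨2, by simp, by push_cast; linear_combination -h⟩
    · exact ⟨-1, by simp, by push_cast; linear_combination h⟩
    · exact ⟨-2, by simp, by push_cast; linear_combination h⟩
  · rintro ⟨a, ha, rfl⟩
    simp only [mem_insert, mem_singleton] at ha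
    have := (Sq_adjZ hn v 0 a (by omega) (by omega)).mpr (by omega)
    simpa using this

lemma Sq_K4f (hn : 7 ≤ n) : K4f (Sq n) := by
  intro a b c d h1 h2 h3 h4 h5 h6
  obtain ⟨x, hx, rfl⟩ := (Sq_adj hn _ _).mp h1
  obtain ⟨y, hy, rfl⟩ := (Sq_adj hn _ _).mp h2
  obtain ⟨z, hz, rfl⟩ := (Sq_adj hn _ _).mp h3
  simp only [mem_insert, mem_singleton] at hx hy hz
  rw [Sq_adjZ hn] at h4 h5 h6 <;> omega

variable [NeZero n] [DecidableRel (Sq n).Adj]

lemma Sq_NS (hn : 7 ≤ n) (v : ZMod n) :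
    (NS (Sq n) univ v).card = 4 ∧ m2 (Sq n) (NS (Sq n) univ v) = 6 := by
  have h1 : NS (Sq n) univ v = ({1, 2, -1, -2} : Finset ℤ).image fun a : ℤ => v + a := by
    ext u; simp only [mem_NS, mem_univ, true_and, Sq_adj hn, mem_image]
  have h2 : Set.InjOn (fun a : ℤ => v + a) ({1, 2, -1, -2} : Finset ℤ) := by
    intro a ha b hb hab
    simp only [coe_insert, coe_singleton, Set.mem_insert_iff, Set.mem_singleton_iff] at ha hb
    have : ((b - a : ℤ) : ZMod n) = 0 := by push_cast; linear_combination -hab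
    rw [int_zero hn] at this <;> omega
  rw [h1, card_image_of_injOn h2, m2, sum_image h2]
  refine ⟨rfl, ?_⟩
  have h3 : ∀ a ∈ ({1, 2, -1, -2} : Finset ℤ), (∑ b ∈ ({1, 2, -1, -2} : Finset ℤ).image
      fun a : ℤ => v + a, if (Sq n).Adj (v + a) b then 1 else 0) = ∑ b ∈ ({1, 2, -1, -2} : Finset ℤ),
      if b - a = 1 ∨ b - a = 2 ∨ b - a = -1 ∨ b - a = -2 then 1 else 0 := by
    intro a ha
    rw [sum_image h2]
    refine sum_congr rfl fun b hb => if_congr ?_ rfl rfl
    simp only [mem_insert, mem_singleton] at ha hb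
    exact Sq_adjZ hn v a b (by omega) (by omega)
  rw [sum_congr rfl h3]
  decide

lemma Sq_m2 (hn : 7 ≤ n) : m2 (Sq n) univ = 4 * n := by
  rw [m2_eq, sum_congr rfl fun v _ => (Sq_NS hn v).1, sum_const, card_univ, ZMod.card, smul_eq_mul,
    mul_comm]

lemma Sq_t6 (hn : 7 ≤ n) : t6 (Sq n) univ = 6 * n := by
  rw [t6_eq, sum_congr rfl fun v _ => (Sq_NS hn v).2, sum_const, card_univ, ZMod.card, smul_eq_mul,
    mul_comm]

omit [DecidableRel (Sq n).Adj] in
lemma Sq_conn (hn : 7 ≤ n) : Conn (Sq n) univ := by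
  intro U _ ⟨a, ha⟩ hU b _
  have h1 : ∀ i : ℕ, a + i ∈ U := by
    intro i
    induction i with
    | zero => simpa
    | succ i ih =>
      exact hU _ ih _ (mem_univ _) ((Sq_adj hn _ _).mpr ⟨1, by simp, by push_cast; ring⟩)
  simpa using h1 (b - a).val

lemma Sq_hole (hn : 7 ≤ n) {S : Finset (ZMod n)} (h : Hole (Sq n) S) (i : ZMod n) :
    i ∈ S ∨ i + 1 ∈ S := by
  have h1 := h.not_SE (Sq_K4f hn)
  unfold SE at h1
  push Not at h1
  obtain ⟨T, hT, ⟨t, ht⟩, h1⟩ := h1
  by_contra h2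
  push Not at h2
  have h3 : ∃ d : ℕ, i + d ∈ T := ⟨(t - i).val, by simpa⟩
  have h4 := Nat.find_spec h3
  have h5 := fun m => Nat.find_min h3 (m := m)
  generalize Nat.find h3 = d at h4 h5
  obtain ⟨d, rfl⟩ : ∃ e, d = e + 2 := by
    refine ⟨d - 2, ?_⟩
    rcases d with _ | _ | d
    · exact absurd (hT (by simpa using h4)) h2.1
    · exact absurd (hT (by simpa using h4)) h2.2
    · omega
  refine h1 _ ⟨h4, fun a ha b hb h6 h7 hab => ?_⟩
  obtain ⟨x, hx, rfl⟩ := (Sq_adj hn _ _).mp h6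
  obtain ⟨y, hy, rfl⟩ := (Sq_adj hn _ _).mp h7
  have h8 : ∀ x : ℤ, i + (d + 2 : ℕ) + x ∈ T → x ≠ -1 ∧ x ≠ -2 := by
    intro x hx
    constructor <;> rintro rfl
    · exact h5 (d + 1) (by omega) (by convert hx using 1; push_cast; ring)
    · exact h5 d (by omega) (by convert hx using 1; push_cast; ring)
  have := h8 x ha
  have := h8 y hb
  have : x ≠ y := fun h => hab (by rw [h])
  simp only [mem_insert, mem_singleton] at hx hy
  rw [Sq_adjZ hn] <;> omega

lemma Sq_hole_card (hn : 7 ≤ n) {S : Finset (ZMod n)} (h : Hole (Sq n) S) :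
    n ≤ 2 * S.card ∧ (n = 2 * S.card → ∀ i ∈ S, i + 1 ∉ S) := by
  have h1 : S ∪ S.image (· - 1) = univ := eq_univ_of_forall fun i => by
    rcases Sq_hole hn h i with h1 | h1
    · exact mem_union_left _ h1
    · exact mem_union_right _ (mem_image.mpr ⟨_, h1, by ring⟩)
  have h2 := card_union_add_card_inter S (S.image (· - 1))
  have h3 : (S.image (· - 1)).card ≤ S.card := card_image_le
  rw [h1, card_univ, ZMod.card] at h2
  refine ⟨by omega, fun h4 i hi hi' => ?_⟩
  have h5 : 0 < (S ∩ S.image (· - 1)).card :=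
    card_pos.mpr ⟨i, mem_inter.mpr ⟨hi, mem_image.mpr ⟨_, hi', by ring⟩⟩⟩
  omega

lemma Sq_hc {k : ℕ} (hn : 7 ≤ n) (hk : n = 2 * k) : hc (Sq n) k ≤ 2 := by
  classical
  rw [hc]
  refine (card_le_card_of_injOn (t := (univ : Finset Bool)) (fun S => decide (0 ∈ S))
    (fun _ _ => mem_coe.mpr (mem_univ _)) fun S hS T hT hST => ?_).trans (by simp)
  simp only [coe_filter, mem_univ, true_and, Set.mem_ofPred_eq, decide_eq_decide] at hS hT hST
  have h1 : ∀ i : ℕ, (i : ZMod n) ∈ S ↔ (i : ZMod n) ∈ T := by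
    intro i
    induction i with
    | zero => simpa
    | succ i ih =>
      have h2 := Sq_hole hn hS.1 i
      have h3 := Sq_hole hn hT.1 i
      have h4 := (Sq_hole_card hn hS.1).2 (by rw [hS.2, hk]) i
      have h5 := (Sq_hole_card hn hT.1).2 (by rw [hT.2, hk]) i
      push_cast; tauto
  ext x
  simpa using h1 x.val

end Pool.Agent.Lib.MP_8cb124_co
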