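import Pool.Agent.Lib.MP_8cb124_co.Good

open Finset Function

namespace Pool.Agent.Lib.MP_8cb124_co

variable {V : Type} [DecidableEq V] {G : SimpleGraph V} [DecidableRel G.Adj] {S : Finset V}

/-- successor relation on marked triangles -/
def Nx (s t : V × V × V) : Prop :=
  t.2.2 ≠ s.1 ∧ ((t.1 = s.2.1 ∧ t.2.1 = s.2.2) ∨ (t.1 = s.2.2 ∧ t.2.1 = s.2.1))

/-- reversal -/
def rv (s : V × V × V) : V × V × V := (s.2.2, s.2.1, s.1)

omit [DecidableEq V] in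
lemma Nx.rv {s t : V × V × V} (h : Nx s t) : Nx (rv t) (rv s) := by
  unfold Nx MP_8cb124_co.rv at *
  exact ⟨h.1.symm, h.2.elim (fun h => Or.inl ⟨h.2.symm, h.1.symm⟩) fun h => Or.inr ⟨h.1.symm, h.2.symm⟩⟩

omit [DecidableEq V] in
lemma rv_mem {s : V × V × V} (h : s ∈ St G S) : rv s ∈ St G S := by
  obtain ⟨x, p, z⟩ := s
  obtain ⟨h1, h2, h3, h4, h5, h6, h7⟩ := mem_St.mp h
  exact mem_St.mpr ⟨h3, h2, h1, h6.symm, h5.symm, h4.symm, (tau_comm _ _ _).trans h7⟩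

lemma third {p z x w w' : V} (h : tau G S p z ≤ 2) (hx : x ∈ S) (hw : w ∈ S) (hw' : w' ∈ S)
    (h1 : G.Adj p x) (h2 : G.Adj z x) (h3 : G.Adj p w) (h4 : G.Adj z w) (h5 : G.Adj p w')
    (h6 : G.Adj z w') (h7 : w ≠ x) (h8 : w' ≠ x) : w = w' := by
  by_contra h9
  have := two_lt_card_iff.mpr ⟨x, w, w', (mem_filter (p := fun b => G.Adj p b ∧ G.Adj z b)).mpr
    ⟨hx, h1, h2⟩, mem_filter.mpr ⟨hw, h3, h4⟩, mem_filter.mpr ⟨hw', h5, h6⟩, h7.symm, h8.symm, h9⟩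
  unfold tau at h; omega

section
variable (h : Good G S) (hF : LF G) (hm : ∀ v ∈ S, ¬ Good G (S.erase v))
include h hF hm

lemma nx_ex {s : V × V × V} (hs : s ∈ St G S) : ∃ t ∈ St G S, Nx s t := by
  obtain ⟨x, p, z⟩ := s
  obtain ⟨h1, h2, h3, h4, h5, h6, h7⟩ := mem_St.mp hs
  have h8 := h.one hF hm h3 h1 h2 h5.symm h6.symm h4 ((tau_comm _ _ _).trans h7)
  have h9 := h.tau_pos hF h3 h2 h6.symm
  obtain ⟨w, hw, hwx⟩ := exists_mem_ne (s := S.filter fun b => G.Adj z b ∧ G.Adj p b)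
    (show 1 < tau G S z p by omega) x
  obtain ⟨hw, h10, h11⟩ := mem_filter.mp hw
  rcases (h.count hF hm).2.2 z h3 p h2 w hw h6.symm h10 h11 with h12 | h12 | h12
  · exact ⟨(z, p, w), mem_St.mpr ⟨h3, h2, hw, h6.symm, h10, h11, h12⟩, hwx, Or.inr ⟨rfl, rfl⟩⟩
  · exact absurd h12 h8
  · exact ⟨(p, z, w), mem_St.mpr ⟨h2, h3, hw, h6, h11, h10, h12⟩, hwx, Or.inl ⟨rfl, rfl⟩⟩

lemma nx_third {s t : V × V × V} (hs : s ∈ St G S) (ht : t ∈ St G S) (h1 : Nx s t) {w : V}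
    (hw : w ∈ S) (h2 : G.Adj s.2.1 w) (h3 : G.Adj s.2.2 w) (h4 : w ≠ s.1) : w = t.2.2 := by
  obtain ⟨x, p, z⟩ := s
  obtain ⟨a, b, c⟩ := t
  obtain ⟨s1, s2, s3, s4, s5, s6, -⟩ := mem_St.mp hs
  obtain ⟨-, -, t3, -, t5, t6, -⟩ := mem_St.mp ht
  have h5 : G.Adj p c ∧ G.Adj z c := by
    rcases h1.2 with ⟨rfl, rfl⟩ | ⟨rfl, rfl⟩
    exacts [⟨t5, t6⟩, ⟨t6, t5⟩]
  exact third ((h.count hF hm).2.1 p s2 z s3 s6) s1 hw t3 s4.symm s5.symm h2 h3 h5.1 h5.2 h4 h1.1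

lemma nx_uniq {s t t' : V × V × V} (hs : s ∈ St G S) (ht : t ∈ St G S) (ht' : t' ∈ St G S)
    (h1 : Nx s t) (h2 : Nx s t') : t = t' := by
  obtain ⟨x, p, z⟩ := s
  obtain ⟨a, b, c⟩ := t
  obtain ⟨a', b', c'⟩ := t'
  obtain ⟨t1, t2, t3, t4, t5, t6, t7⟩ := mem_St.mp ht
  obtain ⟨-, -, -, -, -, -, t7'⟩ := mem_St.mp ht'
  have h5 : G.Adj p c ∧ G.Adj z c := by
    rcases h1.2 with ⟨rfl, rfl⟩ | ⟨rfl, rfl⟩
    exacts [⟨t5, t6⟩, ⟨t6, t5⟩]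
  obtain rfl : c = c' := nx_third h hF hm hs ht' h2 t3 h5.1 h5.2 h1.1
  have h6 := h.one hF hm t3 t1 t2 t5.symm t6.symm t4 ((tau_comm _ _ _).trans t7)
  rw [tau_comm] at h6
  rcases h1.2 with ⟨rfl, rfl⟩ | ⟨rfl, rfl⟩ <;> rcases h2.2 with ⟨rfl, rfl⟩ | ⟨rfl, rfl⟩
  exacts [rfl, absurd t7' h6, absurd t7' h6, rfl]

lemma St_ne : (St G S).Nonempty := by
  obtain ⟨a, ha⟩ := h.ne
  obtain ⟨c, hc⟩ := h.nbr ha
  rw [mem_NS] at hc
  obtain ⟨b, hb⟩ := card_pos.mp (h.tau_pos hF ha hc.1 hc.2)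
  obtain ⟨hb, h1, h2⟩ := mem_filter.mp hb
  rcases (h.count hF hm).2.2 a ha b hb c hc.1 h1 hc.2 h2.symm with h3 | h3 | h3
  · exact ⟨(a, b, c), mem_St.mpr ⟨ha, hb, hc.1, h1, hc.2, h2.symm, h3⟩⟩
  · exact ⟨(a, c, b), mem_St.mpr ⟨ha, hc.1, hb, hc.2, h1, h2, h3⟩⟩
  · exact ⟨(b, a, c), mem_St.mpr ⟨hb, ha, hc.1, h1.symm, h2.symm, hc.2, h3⟩⟩

lemma orbit (s0 : St G S) {f : St G S → St G S} (hf : ∀ s, Nx s.1 (f s).1) :
    0 < minimalPeriod f s0 ∧ minimalPeriod f s0 ≤ S.card ∧ ∀ a ∈ S, ∀ b ∈ S, G.Adj a b → ∃ i,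
      a ∈ ({(f^[i] s0).1.1, (f^[i] s0).1.2.1, (f^[i] s0).1.2.2} : Finset V) ∧
      b ∈ ({(f^[i] s0).1.1, (f^[i] s0).1.2.1, (f^[i] s0).1.2.2} : Finset V) := by
  let ρ : St G S → St G S := fun s => ⟨rv s.1, rv_mem s.2⟩
  have hρ : ∀ s, ρ (ρ s) = s := fun s => rfl
  have h1 : ∀ s, f (ρ (f s)) = ρ s := fun s =>
    Subtype.ext (nx_uniq h hF hm (ρ (f s)).2 (f _).2 (ρ s).2 (hf _) (hf s).rv)
  have hinj : Injective f := fun s t hst => by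
    rw [← hρ s, ← h1 s, hst, h1, hρ]
  have hL := minimalPeriod_pos_of_mem_periodicPts (hinj.mem_periodicPts s0)
  have h2 : ∀ d s, f^[d] s ≠ ρ s := by
    intro d
    induction d using Nat.twoStepInduction with
    | zero => exact fun s hs => (mem_St.mp s.2).2.2.2.2.1.ne (congrArg (·.1.1) hs)
    | one => exact fun s hs => (hf s).1 (congrArg (·.1.2.2) hs)
    | more d ih _ =>
      intro s hs
      rw [iterate_succ_apply, iterate_succ_apply', ← h1] at hs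
      exact ih _ (hinj hs)
  have h3 : ∀ i j, f^[i] s0 ≠ ρ (f^[j] s0) := by
    intro i j hij
    rcases le_total i j with h4 | h4
    · obtain ⟨d, rfl⟩ := Nat.exists_eq_add_of_le' h4
      exact h2 d (f^[i] s0) (by rw [← iterate_add_apply, hij, hρ])
    · obtain ⟨d, rfl⟩ := Nat.exists_eq_add_of_le' h4
      exact h2 d (f^[j] s0) (by rw [← iterate_add_apply, hij])
  refine ⟨hL, ?_, ?_⟩
  · let O := (range (minimalPeriod f s0)).image (f^[·] s0)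
    have h4 : O.card = minimalPeriod f s0 := by
      rw [card_image_of_injOn (by rw [coe_range]; exact iterate_injOn_Iio_minimalPeriod), card_range]
    have h5 : (O.image ρ).card = O.card := card_image_of_injective _ (LeftInverse.injective hρ)
    have h6 : Disjoint O (O.image ρ) := disjoint_left.mpr fun s hs hs' => by
      obtain ⟨i, -, rfl⟩ := mem_image.mp hs
      obtain ⟨t, ht, h6⟩ := mem_image.mp hs'
      obtain ⟨j, -, rfl⟩ := mem_image.mp ht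
      exact h3 i j h6.symm
    have h7 := card_le_univ (O ∪ O.image ρ)
    rw [card_union_of_disjoint h6, Fintype.card_coe] at h7
    have := (h.count hF hm).1
    omega
  let In : St G S → Prop := fun t => ∃ i, t = f^[i] s0 ∨ ρ t = f^[i] s0
  have i1 : ∀ t, In t → In (ρ t) := fun t ⟨i, hi⟩ => ⟨i, hi.symm⟩
  have i2 : ∀ t, In t → In (f t) := by
    rintro t ⟨i, hi | hi⟩
    · exact ⟨i + 1, Or.inl (by rw [iterate_succ_apply', hi])⟩
    · refine ⟨i + minimalPeriod f s0 - 1, Or.inr (hinj ?_)⟩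
      rw [h1, hi, ← iterate_succ_apply' f, Nat.succ_eq_add_one, Nat.sub_add_cancel (by omega),
        iterate_add_minimalPeriod_eq]
  let Vs : St G S → Finset V := fun t => {t.1.1, t.1.2.1, t.1.2.2}
  have v1 : ∀ t, Vs (ρ t) = Vs t := fun t => by
    ext a; simp only [Vs, ρ, rv, mem_insert, mem_singleton]; tauto
  have k1 : ∀ t, In t → ∀ w ∈ S, G.Adj t.1.2.1 w → G.Adj t.1.2.2 w →
      ∃ t', In t' ∧ t.1.2.1 ∈ Vs t' ∧ t.1.2.2 ∈ Vs t' ∧ w ∈ Vs t' := by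
    intro t ht w hw h4 h5
    by_cases h6 : w = t.1.1
    · exact ⟨t, ht, by simp [Vs], by simp [Vs], by simp [Vs, h6]⟩
    · refine ⟨f t, i2 t ht, ?_, ?_, by simp [Vs, nx_third h hF hm t.2 (f t).2 (hf t) hw h4 h5 h6]⟩
        <;> rcases (hf t).2 with h7 | h7 <;> simp [Vs, h7]
  have k2 : ∀ t, In t → ∀ v ∈ Vs t, ∀ u ∈ Vs t, ∀ w ∈ S, G.Adj v u → G.Adj v w → G.Adj u w →
      ∃ t', In t' ∧ v ∈ Vs t' ∧ w ∈ Vs t' := by
    intro t ht v hv u hu w hw h4 h5 h6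
    obtain ⟨-, s2, -, s4, -, s6, s7⟩ := mem_St.mp t.2
    have k3 := k1 t ht w hw
    have k4 := k1 _ (i1 t ht) w hw
    have k5 : G.Adj t.1.1 w → G.Adj t.1.2.2 w → w ∈ Vs t := fun h7 h8 => by
      simp [Vs, tau_one s7 hw s2 h7 h8 s4 s6.symm]
    simp only [Vs, mem_insert, mem_singleton] at hv hu
    rcases hv with rfl | rfl | rfl <;> rcases hu with rfl | rfl | rfl
    · exact absurd rfl h4.ne
    · obtain ⟨t', h7, -, h8⟩ := k4 h6 h5; exact ⟨t', h7, h8⟩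
    · exact ⟨t, ht, by simp [Vs], k5 h5 h6⟩
    · obtain ⟨t', h7, h8, -, h9⟩ := k4 h5 h6; exact ⟨t', h7, h8, h9⟩
    · exact absurd rfl h4.ne
    · obtain ⟨t', h7, h8, -, h9⟩ := k3 h5 h6; exact ⟨t', h7, h8, h9⟩
    · exact ⟨t, ht, by simp [Vs], k5 h6 h5⟩
    · obtain ⟨t', h7, -, h8⟩ := k3 h6 h5; exact ⟨t', h7, h8⟩
    · exact absurd rfl h4.ne
  classical
  have k3 : ∀ v ∈ S, (∃ t, In t ∧ v ∈ Vs t) → ∀ u ∈ S, G.Adj v u → ∃ t, In t ∧ v ∈ Vs t ∧ u ∈ Vs t := by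
    rintro v hv ⟨t, ht, hvt⟩ u hu hvu
    refine (mem_filter.mp (h.link hF hv ((NS G S v).filter fun u => ∃ t, In t ∧ v ∈ Vs t ∧ u ∈ Vs t)
      (filter_subset _ _) ?_ ?_ ((mem_NS G).mpr ⟨hu, hvu⟩))).2
    · obtain ⟨s1, s2, -, s4, -, s6, -⟩ := mem_St.mp t.2
      have hvt' := hvt
      simp only [Vs, mem_insert, mem_singleton] at hvt'
      rcases hvt' with rfl | rfl | rfl
      · exact ⟨_, mem_filter.mpr ⟨(mem_NS G).mpr ⟨s2, s4⟩, t, ht, hvt, by simp [Vs]⟩⟩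
      · exact ⟨_, mem_filter.mpr ⟨(mem_NS G).mpr ⟨s1, s4.symm⟩, t, ht, hvt, by simp [Vs]⟩⟩
      · exact ⟨_, mem_filter.mpr ⟨(mem_NS G).mpr ⟨s2, s6.symm⟩, t, ht, hvt, by simp [Vs]⟩⟩
    · intro a ha b hb hab
      obtain ⟨ha, t, ht, h4, h5⟩ := mem_filter.mp ha
      rw [mem_NS] at ha
      exact mem_filter.mpr ⟨hb, k2 t ht v h4 a h5 b ((mem_NS G).mp hb).1 ha.2
        ((mem_NS G).mp hb).2 hab⟩
  have k4 := h.conn (S.filter fun v => ∃ t, In t ∧ v ∈ Vs t) (filter_subset _ _)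
    ⟨s0.1.1, mem_filter.mpr ⟨(mem_St.mp s0.2).1, s0, ⟨0, Or.inl rfl⟩, by simp [Vs]⟩⟩
    fun a ha b hb hab => by
      obtain ⟨t, ht, -, h4⟩ := k3 a (mem_filter.mp ha).1 (mem_filter.mp ha).2 b hb hab
      exact mem_filter.mpr ⟨hb, t, ht, h4⟩
  intro a ha b hb hab
  obtain ⟨t, ⟨i, hi⟩, h4, h5⟩ := k3 a ha (mem_filter.mp (k4 ha)).2 b hb hab
  refine ⟨i, ?_⟩
  rcases hi with hi | hi
  · rw [← hi]; exact ⟨h4, h5⟩
  · rw [← v1] at h4 h5; rw [← hi]; exact ⟨h4, h5⟩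

lemma switch {f : St G S → St G S} (hf : ∀ s, Nx s.1 (f s).1) : ∃ s, (f s).1.2.1 = s.1.2.2 := by
  by_contra h1
  push Not at h1
  have h2 : ∀ s, (f s).1.1 = s.1.2.2 ∧ (f s).1.2.1 = s.1.2.1 := fun s =>
    (hf s).2.resolve_left fun h => h1 s h.2
  obtain ⟨s0, hs0⟩ := St_ne h hF hm
  let T := (univ.filter fun s : St G S => s.1.2.1 = s0.2.1).image fun s => (f s).1.2.2
  have h3 : ∀ x ∈ T, G.Adj s0.2.1 x := fun x hx => by
    obtain ⟨s, hs, rfl⟩ := mem_image.mp hx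
    rw [← (mem_filter.mp hs).2, ← (h2 s).2]
    exact (mem_St.mp (f s).2).2.2.2.2.2.1
  have h4 := hF _ T h3 ⟨_, mem_image_of_mem _ (mem_filter.mpr ⟨mem_univ ⟨s0, hs0⟩, rfl⟩)⟩
  have h5 : T.card • 2 ≤ m2 G T := by
    rw [m2_eq]
    refine card_nsmul_le_sum _ _ _ fun x hx => ?_
    obtain ⟨s, hs, rfl⟩ := mem_image.mp hx
    obtain ⟨L, hL, hp⟩ := (Injective.mem_periodicPts (f := f) (fun s t hst => Subtype.ext (by
      have := nx_uniq h hF hm (rv_mem (f s).2) (rv_mem s.2) (rv_mem t.2) (hf s).rv (hst ▸ (hf t).rv)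
      exact congrArg rv this)) s)
    obtain ⟨L, rfl⟩ : ∃ l, L = l + 1 := ⟨L - 1, by omega⟩
    have h6 : f (f^[L] s) = s := by rw [← iterate_succ_apply' f]; exact hp
    have h7 := (mem_filter.mp hs).2
    refine one_lt_card.mpr ⟨s.1.2.2, (mem_NS G).mpr ⟨mem_image.mpr ⟨f^[L] s, mem_filter.mpr
      ⟨mem_univ _, by rw [← (h2 _).2, h6, h7]⟩, by rw [h6]⟩, ?_⟩, (f (f s)).1.2.2, (mem_NS G).mpr
      ⟨mem_image_of_mem _ (mem_filter.mpr ⟨mem_univ _, (h2 s).2.trans h7⟩), ?_⟩, ?_⟩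
    · rw [← (h2 s).1]; exact (mem_St.mp (f s).2).2.2.2.2.1.symm
    · rw [← (h2 (f s)).1]; exact (mem_St.mp (f (f s)).2).2.2.2.2.1
    · rw [← (h2 s).1]; exact (hf (f s)).1.symm
  rw [smul_eq_mul] at h5
  omega

end

/-- a periodic triangulated strip covering S -/
structure Strip (G : SimpleGraph V) (S : Finset V) (L : ℕ) (y : ℕ → V) (B : ℕ → ℕ) : Prop where
  pos : 0 < L
  le : L ≤ S.card
  per : ∀ i, y (i + L) = y i
  mem : ∀ i, y i ∈ S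
  zero : B 0 = 0
  succ : ∀ i, B (i + 1) = i + 1 ∨ B (i + 1) = B i
  perB : ∀ i, B (i + L) = B i + L
  adj1 : ∀ i, G.Adj (y (i + 1)) (y i)
  adj2 : ∀ i, G.Adj (y (i + 2)) (y (B i))
  all : ∀ a ∈ S, ∀ b ∈ S, G.Adj a b → ∃ i, a ∈ ({y (i + 2), y (i + 1), y (B i)} : Finset V) ∧
    b ∈ ({y (i + 2), y (i + 1), y (B i)} : Finset V)

lemma strip (h : Good G S) (hF : LF G) (hm : ∀ v ∈ S, ¬ Good G (S.erase v)) :
    ∃ L y B, Strip G S L y B := by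
  have h1 : ∀ s : St G S, ∃ t : St G S, Nx s.1 t.1 := fun s => by
    obtain ⟨t, ht, h1⟩ := nx_ex h hF hm s.2
    exact ⟨⟨t, ht⟩, h1⟩
  choose f hf using h1
  obtain ⟨s0, h0⟩ := switch h hF hm hf
  obtain ⟨o1, o2, o3⟩ := orbit h hF hm s0 hf
  have hp : ∀ i, f^[i + minimalPeriod f s0] s0 = f^[i] s0 := fun i => iterate_add_minimalPeriod_eq
  generalize minimalPeriod f s0 = L at o1 o2 hp
  let s : ℕ → V × V × V := fun i => (f^[i] s0).1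
  have hs : ∀ i, Nx (s i) (s (i + 1)) := fun i => by
    simp only [s, iterate_succ_apply']; exact hf _
  have hm : ∀ i, s i ∈ St G S := fun i => (f^[i] s0).2
  have hp' : ∀ i, s (i + L) = s i := fun i => congrArg Subtype.val (hp i)
  have h0' : (s 1).2.1 = (s 0).2.2 := h0
  let B : ℕ → ℕ := fun i => Nat.rec 0 (fun i b => if (s (i + 2)).2.1 = (s (i + 1)).2.2 then i + 1 else b) i
  have hB : ∀ i, B (i + 1) = if (s (i + 2)).2.1 = (s (i + 1)).2.2 then i + 1 else B i := fun _ => rfl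
  have b1 : ∀ i, (s (i + 1)).2.1 = (s (B i)).2.2 := by
    intro i
    induction i with
    | zero => exact h0'
    | succ i ih =>
      rw [hB]
      split_ifs with h2
      · exact h2
      · rw [← ih]; exact ((hs (i + 1)).2.resolve_left fun h => h2 h.2).2
  have b2 : ∀ i, G.Adj (s (i + 1)).2.2 (s i).2.2 ∧ G.Adj (s (i + 1)).2.2 (s i).2.1 := fun i => by
    obtain ⟨-, -, -, -, h5, h6, -⟩ := mem_St.mp (hm (i + 1))
    rcases (hs i).2 with h | h <;> rw [← h.1, ← h.2]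
    exacts [⟨h6.symm, h5.symm⟩, ⟨h5.symm, h6.symm⟩]
  refine ⟨L, fun i => (s i).2.2, B, o1, o2, fun i => by rw [hp'], fun i => (mem_St.mp (hm i)).2.2.1,
    rfl, fun i => ?_, fun i => ?_, fun i => (b2 i).1, fun i => b1 i ▸ (b2 (i + 1)).2, ?_⟩
  · rw [hB]; split_ifs; exacts [Or.inl rfl, Or.inr rfl]
  · induction i with
    | zero =>
      obtain ⟨l, rfl⟩ : ∃ l, L = l + 1 := ⟨L - 1, by omega⟩
      have e1 := hp' 1
      have e2 := hp' 0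
      rw [zero_add] at e2
      rw [zero_add, hB, if_pos (by rw [show l + 2 = 1 + (l + 1) by omega, e1, e2, h0'])]
      exact (zero_add _).symm
    | succ i ih =>
      rw [add_right_comm, hB, hB, add_right_comm i L, add_right_comm i L, hp', hp', ih]
      split_ifs <;> rfl
  · intro a ha b hb hab
    obtain ⟨i, hi⟩ := o3 a ha b hb hab
    obtain ⟨j, hj⟩ : ∃ j, s (j + 2) = s i :=
      ⟨i + L + L - 2, by rw [Nat.sub_add_cancel (by omega), hp', hp']⟩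
    have h2 : ({(s (j + 2)).1, (s (j + 2)).2.1, (s (j + 2)).2.2} : Finset V) =
        {(s (j + 2)).2.2, (s (j + 1)).2.2, (s (B j)).2.2} := by
      rw [← b1]
      rcases (hs (j + 1)).2 with h | h <;> rw [h.1, h.2] <;> ext x <;> simp <;> tauto
    exact ⟨j, by rw [← h2, hj]; exact hi⟩

end Pool.Agent.Lib.MP_8cb124_co
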