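import Pool.Agent.Lib.MP_8cb124_co.Simp

open Finset

namespace Pool.Agent.Lib.MP_8cb124_co

variable {V : Type} {G : SimpleGraph V}

/-- walks inside W with length and parity -/
inductive Wk (G : SimpleGraph V) (W : Finset V) (ω : V → V → ZMod 2) : V → V → ℕ → ZMod 2 → Prop
  | refl (a : V) : Wk G W ω a a 0 0
  | step {a b c : V} {s : ℕ} {e : ZMod 2} : Wk G W ω a b s e → b ∈ W → c ∈ W → G.Adj b c →
      Wk G W ω a c (s + 1) (e + ω b c)

variable {W : Finset V} {ω : V → V → ZMod 2}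

lemma Wk.cast {a b : V} {s s' : ℕ} {e e' : ZMod 2} (h : Wk G W ω a b s e) (hs : s = s')
    (he : e = e') : Wk G W ω a b s' e' := hs ▸ he ▸ h

lemma Wk.single {a b : V} (ha : a ∈ W) (hb : b ∈ W) (h : G.Adj a b) : Wk G W ω a b 1 (ω a b) :=
  ((Wk.refl a).step ha hb h).cast rfl (zero_add _)

lemma Wk.trans {a b c : V} {s s' : ℕ} {e e' : ZMod 2} (h : Wk G W ω a b s e)
    (h' : Wk G W ω b c s' e') : Wk G W ω a c (s + s') (e + e') := by
  induction h' with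
  | refl => simpa using h
  | step _ hb hc hbc ih => exact (ih.step hb hc hbc).cast (add_assoc _ _ _) (add_assoc _ _ _)

lemma Wk.symm (hω : ∀ a b, ω a b = ω b a) {a b : V} {s : ℕ} {e : ZMod 2} (h : Wk G W ω a b s e) :
    Wk G W ω b a s e := by
  induction h with
  | refl => exact Wk.refl _
  | step _ hb hc hbc ih =>
    exact ((Wk.single hc hb hbc.symm).trans ih).cast (add_comm _ _) (by rw [add_comm, hω])

lemma Wk.exists_fun {a b : V} {s : ℕ} {e : ZMod 2} (h : Wk G W ω a b s e) :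
    ∃ (c : ℕ → V) (P : ℕ → ZMod 2), c 0 = a ∧ c s = b ∧ P 0 = 0 ∧ P s = e ∧ ∀ i < s,
      c i ∈ W ∧ c (i + 1) ∈ W ∧ G.Adj (c i) (c (i + 1)) ∧ P (i + 1) = P i + ω (c i) (c (i + 1)) := by
  induction h with
  | refl => exact ⟨fun _ => a, fun _ => 0, rfl, rfl, rfl, rfl, fun i hi => absurd hi (by omega)⟩
  | @step b c s e _ hb hc hbc ih =>
    obtain ⟨c', P, h1, h2, h3, h4, h5⟩ := ih
    refine ⟨fun i => if i ≤ s then c' i else c, fun i => if i ≤ s then P i else e + ω b c,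
      by simpa, by simp, by simpa, by simp, fun i hi => ?_⟩
    rcases Nat.lt_succ_iff_lt_or_eq.mp hi with h6 | rfl
    · simpa only [if_pos h6.le, if_pos (Nat.succ_le_of_lt h6)] using h5 i h6
    · simp [h2, h4, hb, hc, hbc]

lemma Wk.seg {c : ℕ → V} {P : ℕ → ZMod 2} (i d : ℕ) (h : ∀ j, i ≤ j → j < i + d →
    c j ∈ W ∧ c (j + 1) ∈ W ∧ G.Adj (c j) (c (j + 1)) ∧ P (j + 1) = P j + ω (c j) (c (j + 1))) :
    Wk G W ω (c i) (c (i + d)) d (P (i + d) - P i) := by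
  induction d with
  | zero => simpa using Wk.refl (c i)
  | succ d ih =>
    obtain ⟨h1, h2, h3, h4⟩ := h (i + d) (by omega) (by omega)
    exact ((ih fun j h5 h6 => h j h5 (by omega)).step h1 h2 h3).cast rfl
      (by rw [← add_assoc, h4]; ring)

/-- W carries an odd closed walk -/
def OddW (G : SimpleGraph V) (W : Finset V) (ω : V → V → ZMod 2) : Prop := ∃ a s, Wk G W ω a a s 1

/-- symmetric cocycle -/
def Coc (G : SimpleGraph V) (W : Finset V) (ω : V → V → ZMod 2) : Prop :=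
  (∀ a b, ω a b = ω b a) ∧ ∀ a ∈ W, ∀ b ∈ W, ∀ c ∈ W, G.Adj a b → G.Adj b c → G.Adj a c →
    ω a c = ω a b + ω b c

lemma Coc.mono {W' : Finset V} (h : Coc G W ω) (hW : W' ⊆ W) : Coc G W' ω :=
  ⟨h.1, fun a ha b hb c hc => h.2 a (hW ha) b (hW hb) c (hW hc)⟩

/-- induced cycle of length at least four -/
structure Cyc (G : SimpleGraph V) (l : ℕ) (c : ℕ → V) : Prop where
  four : 4 ≤ l
  close : c l = c 0
  adj : ∀ i < l, G.Adj (c i) (c (i + 1))
  inj : ∀ i j, i < j → j < l → c i ≠ c j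
  chord : ∀ i j, i < j → j < l → G.Adj (c i) (c j) → j = i + 1 ∨ (i = 0 ∧ j + 1 = l)

lemma min_odd (hc : Coc G W ω) (h : OddW G W ω) : ∃ l c, Cyc G l c ∧ (∀ i < l, c i ∈ W) ∧
    ∀ i j q e, i ≤ j → j ≤ l → Wk G W ω (c i) (c j) q e → j ≤ i + q ∨ l + i ≤ j + q := by
  classical
  have h1 : ∃ s, ∃ a, Wk G W ω a a s 1 := by obtain ⟨a, s, h⟩ := h; exact ⟨s, a, h⟩
  obtain ⟨a, ha⟩ := Nat.find_spec h1
  have hmin : ∀ s a, Wk G W ω a a s 1 → Nat.find h1 ≤ s := fun s a h => Nat.find_min' h1 ⟨a, h⟩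
  generalize Nat.find h1 = l at ha hmin
  obtain ⟨c, P, h2, h3, h4, h5, h6⟩ := ha.exists_fun
  have hcl : c l = c 0 := h3.trans h2.symm
  have hsh : ∀ i j q e, i ≤ j → j ≤ l → Wk G W ω (c i) (c j) q e → j ≤ i + q ∨ l + i ≤ j + q := by
    intro i j q e hij hjl hw
    obtain ⟨d, rfl⟩ := Nat.exists_eq_add_of_le hij
    obtain ⟨d', rfl⟩ := Nat.exists_eq_add_of_le hjl
    have w1 : Wk G W ω (c 0) (c (0 + i)) i _ := Wk.seg 0 i fun j _ _ => h6 j (by omega)
    have w2 : Wk G W ω (c i) (c (i + d)) d _ := Wk.seg i d fun j _ _ => h6 j (by omega)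
    have w3 : Wk G W ω (c (i + d)) (c (i + d + d')) d' _ :=
      Wk.seg (i + d) d' fun j _ _ => h6 j (by omega)
    rw [zero_add] at w1
    by_cases he : e = P (i + d) - P i
    · have w4 := (w1.trans hw).trans w3
      rw [hcl] at w4
      have := hmin _ _ (w4.cast rfl (by rw [he, h4, h5]; ring))
      omega
    · have w4 := w2.trans (hw.symm hc.1)
      have h7 : ∀ x e : ZMod 2, e ≠ x → x + e = 1 := by decide
      have := hmin _ _ (w4.cast rfl (h7 _ _ he))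
      omega
  refine ⟨l, c, ⟨?_, hcl, fun i hi => (h6 i hi).2.2.1, fun i j hij hj hne => ?_,
    fun i j hij hj hadj => ?_⟩, fun i hi => (h6 i hi).1, hsh⟩
  · by_contra h7
    have h8 : l = 0 ∨ l = 1 ∨ l = 2 ∨ l = 3 := by omega
    rcases h8 with rfl | rfl | rfl | rfl
    · rw [h4] at h5; exact absurd h5 (by decide)
    · exact (h6 0 (by omega)).2.2.1.ne hcl.symm
    · have e1 := (h6 0 (by omega)).2.2.2
      have e2 := (h6 1 (by omega)).2.2.2
      simp only [zero_add, Nat.reduceAdd] at e1 e2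
      rw [h5, e1, h4, hcl, hc.1 (c 1)] at e2
      revert e2; generalize ω (c 0) (c 1) = x; revert x; decide
    · obtain ⟨m0, m1, a1, e1⟩ := h6 0 (by omega)
      obtain ⟨-, m2, a2, e2⟩ := h6 1 (by omega)
      obtain ⟨-, -, a3, e3⟩ := h6 2 (by omega)
      simp only [zero_add, Nat.reduceAdd] at m1 m2 a1 a2 a3 e1 e2 e3
      rw [hcl] at a3 e3
      rw [h5, e2, e1, h4, hc.1 (c 2), hc.2 _ m0 _ m1 _ m2 a1 a2 a3.symm] at e3
      revert e3; generalize ω (c 0) (c 1) = x; generalize ω (c 1) (c 2) = y; revert x y; decide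
  · have := hsh i j 0 0 hij.le hj.le (hne ▸ Wk.refl _)
    omega
  · have := hsh i j 1 _ hij.le hj.le (Wk.single (h6 i (by omega)).1 (h6 j hj).1 hadj)
    omega

variable [DecidableEq V]

/-- S is the vertex set of a hole -/
def Hole (G : SimpleGraph V) (S : Finset V) : Prop := ∃ l c, Cyc G l c ∧ S = (range l).image c

lemma Cyc.card {l : ℕ} {c : ℕ → V} (h : Cyc G l c) : ((range l).image c).card = l := by
  rw [card_image_of_injOn, card_range]
  intro i hi j hj hij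
  rw [coe_range, Set.mem_Iio] at hi hj
  rcases lt_trichotomy i j with h1 | h1 | h1
  exacts [absurd hij (h.inj i j h1 hj), h1, absurd hij.symm (h.inj j i h1 hi)]

lemma Hole.four {S : Finset V} (h : Hole G S) : 4 ≤ S.card := by
  obtain ⟨l, c, h1, rfl⟩ := h
  rw [h1.card]; exact h1.four

lemma hole_of_odd (hc : Coc G W ω) (h : OddW G W ω) : ∃ S ⊆ W, Hole G S := by
  obtain ⟨l, c, h1, h2, -⟩ := min_odd hc h
  exact ⟨_, image_subset_iff.mpr fun i hi => h2 i (mem_range.mp hi), l, c, h1, rfl⟩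

lemma dirac_clique {S D : Finset V} {u v a a' : V} (hS : ∀ T ⊆ S, ¬ Hole G T) (hD : D ⊆ S)
    (hv : v ∈ S) (ha : a ∈ S) (ha' : a' ∈ S) (hDv : ∀ x ∈ D, x ≠ v ∧ ¬ G.Adj v x)
    (hu : ∀ x ∈ D, Relation.ReflTransGen (fun x y => x ∈ D ∧ y ∈ D ∧ G.Adj x y) u x)
    (hva : G.Adj v a) (hva' : G.Adj v a') {x x' : V} (hx : x ∈ D) (hx' : x' ∈ D)
    (hax : G.Adj a x) (hax' : G.Adj a' x') (hne : a ≠ a') : G.Adj a a' := by
  by_contra hn
  let ω : V → V → ZMod 2 := fun x y => if (x = v ∧ y = a) ∨ (x = a ∧ y = v) then 1 else 0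
  let W := insert v (insert a (insert a' D))
  have hsym : ∀ x y, ω x y = ω y x := fun x y => if_congr (by tauto) rfl rfl
  have h0 : ∀ x y, ∀ z ∈ W, G.Adj x z → G.Adj y z → ω x y = 0 := by
    intro x y z hz h1 h2
    refine if_neg fun h => ?_
    have h3 : G.Adj v z ∧ G.Adj a z := by rcases h with ⟨rfl, rfl⟩ | ⟨rfl, rfl⟩ <;> tauto
    simp only [W, mem_insert] at hz
    rcases hz with rfl | rfl | rfl | hz
    exacts [h3.1.ne rfl, h3.2.ne rfl, hn h3.2, (hDv z hz).2 h3.1]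
  have hc : Coc G W ω := ⟨hsym, fun x hx y hy z hz h1 h2 h3 => by
    rw [h0 x z y hy h1 h2.symm, h0 x y z hz h3 h2, h0 y z x hx h1.symm h3.symm, add_zero]⟩
  have hDW : ∀ x ∈ D, x ∈ W := fun x hx => by simp [W, hx]
  have h1 : ∀ x y, x ≠ v → y ≠ v → ω x y = 0 := fun x y hx hy => if_neg (by tauto)
  have h2 : ∀ x, Relation.ReflTransGen (fun x y => x ∈ D ∧ y ∈ D ∧ G.Adj x y) u x →
      ∃ s, Wk G W ω u x s 0 := by
    intro x hx
    induction hx with
    | refl => exact ⟨0, Wk.refl _⟩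
    | tail _ h ih =>
      obtain ⟨s, hs⟩ := ih
      exact ⟨_, (hs.step (hDW _ h.1) (hDW _ h.2.1) h.2.2).cast rfl
        (by rw [h1 _ _ (hDv _ h.1).1 (hDv _ h.2.1).1, add_zero])⟩
  obtain ⟨s, hs⟩ := h2 x (hu x hx)
  obtain ⟨s', hs'⟩ := h2 x' (hu x' hx')
  have w : Wk G W ω v v _ _ :=
    ((((((Wk.refl v).step (by simp [W]) (by simp [W]) hva).step (by simp [W]) (hDW x hx) hax).trans
      (hs.symm hsym)).trans hs').step (hDW x' hx') (by simp [W]) hax'.symm).step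
      (by simp [W]) (by simp [W]) hva'.symm
  have h3 : ω a' v = 0 := if_neg (by have := hva'.ne; have := hva.ne; tauto)
  have h4 : ω v a = 1 := if_pos (by tauto)
  rw [h3, h4, h1 _ _ hva.ne' (hDv x hx).1, h1 _ _ (hDv x' hx').1 hva'.ne'] at w
  obtain ⟨T, hT, hT'⟩ := hole_of_odd hc ⟨v, _, w.cast rfl (by simp)⟩
  exact hS T (hT.trans (insert_subset hv (insert_subset ha (insert_subset ha' hD)))) hT'

lemma dirac (S : Finset V) (hS : ∀ T ⊆ S, ¬ Hole G T) : (S.Nonempty → ∃ w, Simp G S w) ∧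
    ∀ v ∈ S, ∀ u ∈ S, u ≠ v → ¬ G.Adj v u → ∃ w, Simp G S w ∧ w ≠ v ∧ ¬ G.Adj v w := by
  classical
  induction S using Finset.strongInduction with
  | H S ih =>
  have h2 : ∀ v ∈ S, ∀ u ∈ S, u ≠ v → ¬ G.Adj v u → ∃ w, Simp G S w ∧ w ≠ v ∧ ¬ G.Adj v w := by
    intro v hv u hu huv hn
    let r : V → V → Prop := fun x y => y ∈ S ∧ y ≠ v ∧ ¬ G.Adj v y ∧ G.Adj x y
    let D := S.filter fun x => x ≠ v ∧ ¬ G.Adj v x ∧ Relation.ReflTransGen r u x
    have huD : u ∈ D := mem_filter.mpr ⟨hu, huv, hn, .refl⟩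
    have hD : D ⊆ S := filter_subset _ _
    have hDv : ∀ x ∈ D, x ≠ v ∧ ¬ G.Adj v x := fun x hx =>
      ⟨(mem_filter.mp hx).2.1, (mem_filter.mp hx).2.2.1⟩
    have hcl : ∀ x ∈ D, ∀ y, r x y → y ∈ D := fun x hx y hy =>
      mem_filter.mpr ⟨hy.1, hy.2.1, hy.2.2.1, (mem_filter.mp hx).2.2.2.tail hy⟩
    have hr : ∀ x, Relation.ReflTransGen r u x → x ∈ D ∧
        Relation.ReflTransGen (fun x y => x ∈ D ∧ y ∈ D ∧ G.Adj x y) u x := by
      intro x hx
      induction hx with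
      | refl => exact ⟨huD, .refl⟩
      | tail _ h ih => exact ⟨hcl _ ih.1 _ h, ih.2.tail ⟨ih.1, hcl _ ih.1 _ h, h.2.2.2⟩⟩
    let A := S.filter fun a => G.Adj v a ∧ ∃ x ∈ D, G.Adj a x
    have hA : ∀ a ∈ A, ∀ a' ∈ A, a ≠ a' → G.Adj a a' := by
      intro a ha a' ha' hne
      obtain ⟨h1, h2, x, hx, h3⟩ := mem_filter.mp ha
      obtain ⟨h1', h2', x', hx', h3'⟩ := mem_filter.mp ha'
      exact dirac_clique hS hD hv h1 h1' hDv (fun x hx => (hr x (mem_filter.mp hx).2.2.2).2)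
        h2 h2' hx hx' h3 h3' hne
    have hN : ∀ w ∈ D, ∀ y ∈ S, G.Adj w y → y ∈ D ∪ A := by
      intro w hw y hy hwy
      by_cases h : G.Adj v y
      · exact mem_union_right _ (mem_filter.mpr ⟨hy, h, w, hw, hwy.symm⟩)
      · exact mem_union_left _ (hcl w hw y ⟨hy, fun h' => (hDv w hw).2 (h' ▸ hwy.symm), h, hwy⟩)
    have hsub : D ∪ A ⊆ S := union_subset hD (filter_subset _ _)
    have hvn : v ∉ D ∪ A := fun h => (mem_union.mp h).elim (fun h => (hDv v h).1 rfl)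
      fun h => (mem_filter.mp h).2.1.ne rfl
    have h3 : ∃ w ∈ D, Simp G (D ∪ A) w := by
      by_cases h : ∃ a ∈ A, ∃ y ∈ D ∪ A, y ≠ a ∧ ¬ G.Adj a y
      · obtain ⟨a, ha, y, hy, h4, h5⟩ := h
        obtain ⟨w, h6, h7, h8⟩ := (ih (D ∪ A) ⟨hsub, fun h => hvn (h hv)⟩ fun T hT =>
          hS T (hT.trans hsub)).2 a (mem_union_right _ ha) y hy h4 h5
        exact ⟨w, (mem_union.mp h6.1).resolve_right fun h => h8 (hA a ha w h h7.symm), h6⟩
      · push Not at h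
        obtain ⟨w, hw⟩ := (ih D ⟨hD, fun h => (hDv v (h hv)).1 rfl⟩ fun T hT =>
          hS T (hT.trans hD)).1 ⟨u, huD⟩
        refine ⟨w, hw.1, mem_union_left _ hw.1, fun x hx y hy h4 h5 hxy => ?_⟩
        rcases mem_union.mp hx with hx' | hx'
        · rcases mem_union.mp hy with hy' | hy'
          · exact hw.2 x hx' y hy' h4 h5 hxy
          · exact (h y hy' x hx hxy).symm
        · exact h x hx' y hy hxy.symm
    obtain ⟨w, hw, h4⟩ := h3
    exact ⟨w, ⟨hD hw, fun x hx y hy h5 h6 => h4.2 x (hN w hw x hx h5) y (hN w hw y hy h6) h5 h6⟩,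
      hDv w hw⟩
  refine ⟨fun ⟨v, hv⟩ => ?_, h2⟩
  by_cases h : ∃ v ∈ S, ∃ u ∈ S, u ≠ v ∧ ¬ G.Adj v u
  · obtain ⟨v, hv, u, hu, h3, h4⟩ := h
    obtain ⟨w, hw, -⟩ := h2 v hv u hu h3 h4
    exact ⟨w, hw⟩
  · push Not at h
    exact ⟨v, hv, fun x hx y hy _ _ hxy => h x hx y hy hxy.symm⟩

lemma SE_of_holefree {S : Finset V} (hS : ∀ T ⊆ S, ¬ Hole G T) : SE G S :=
  fun T hT => (dirac T fun U hU => hS U (hU.trans hT)).1

end Pool.Agent.Lib.MP_8cb124_co
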