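import Mathlib

open Finset Module

namespace Pool.Agent.Lib.MP_8cb124_co

variable {V : Type} [Fintype V] [DecidableEq V]

/-- functions constant along the pairs of A -/
def Uc (A : Finset (V × V)) : Submodule (ZMod 2) (V → ZMod 2) where
  carrier := {f | ∀ e ∈ A, f e.1 = f e.2}
  add_mem' hf hg e he := by simp [hf e he, hg e he]
  zero_mem' _ _ := rfl
  smul_mem' c f hf e he := by simp [hf e he]

omit [Fintype V] [DecidableEq V] in
lemma mem_Uc {A : Finset (V × V)} {f : V → ZMod 2} : f ∈ Uc A ↔ ∀ e ∈ A, f e.1 = f e.2 := Iff.rfl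

/-- number of components -/
noncomputable def cc (A : Finset (V × V)) : ℕ := finrank (ZMod 2) (Uc A)

/-- rank -/
noncomputable def rk (A : Finset (V × V)) : ℕ := Fintype.card V - cc A

omit [DecidableEq V] in
lemma cc_le (A : Finset (V × V)) : cc A ≤ Fintype.card V := by
  have := Submodule.finrank_le (Uc A)
  rwa [finrank_fintype_fun_eq_card] at this

lemma card_const (α : Type) [Fintype α] [DecidableEq α] (A : Finset (V × V)) :
    (univ.filter fun σ : V → α => ∀ e ∈ A, σ e.1 = σ e.2).card = Fintype.card α ^ cc A := by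
  classical
  have key : ∀ (β : Type) [Fintype β] [DecidableEq β],
      (univ.filter fun σ : V → β => ∀ e ∈ A, σ e.1 = σ e.2).card =
      Fintype.card β ^ Nat.card (Quot fun a b : V => (a, b) ∈ A) := by
    intro β _ _
    let e : {σ : V → β // ∀ e ∈ A, σ e.1 = σ e.2} ≃ (Quot (fun a b : V => (a, b) ∈ A) → β) :=
      { toFun := fun σ => Quot.lift σ.1 fun a b h => σ.2 (a, b) h
        invFun := fun g => ⟨fun v => g (Quot.mk _ v), fun e he => congrArg g (Quot.sound he)⟩
        left_inv := fun _ => rfl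
        right_inv := fun g => funext fun q => by induction q using Quot.ind; rfl }
    rw [← Fintype.card_subtype, ← Nat.card_eq_fintype_card, Nat.card_congr e, Nat.card_fun,
      Nat.card_eq_fintype_card]
  have h2 := key (ZMod 2)
  have h3 : Nat.card (Uc A) = 2 ^ cc A := by
    rw [cc, Module.natCard_eq_pow_finrank (K := ZMod 2), Nat.card_zmod]
  have h4 : Nat.card (Uc A) = (univ.filter fun σ : V → ZMod 2 => ∀ e ∈ A, σ e.1 = σ e.2).card := by
    rw [← Fintype.card_subtype, ← Nat.card_eq_fintype_card]; rfl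
  rw [h4, h2, ZMod.card] at h3
  rw [key α, Nat.pow_right_injective le_rfl h3]

omit [Fintype V] in
lemma Uc_union (A B : Finset (V × V)) : Uc (A ∪ B) = Uc A ⊓ Uc B := by
  ext f; simp only [mem_Uc, mem_union, Submodule.mem_inf]
  exact ⟨fun h => ⟨fun e he => h e (Or.inl he), fun e he => h e (Or.inr he)⟩,
    fun h e he => he.elim (h.1 e) (h.2 e)⟩

lemma rk_union_le (A B : Finset (V × V)) : rk (A ∪ B) ≤ rk A + rk B := by
  have h1 := Submodule.finrank_sup_add_finrank_inf_eq (Uc A) (Uc B)
  have h2 := Submodule.finrank_le (Uc A ⊔ Uc B)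
  rw [finrank_fintype_fun_eq_card] at h2
  have := cc_le A; have := cc_le B
  rw [← Uc_union] at h1
  unfold rk cc at *
  omega

lemma rk_union_eq {A B : Finset (V × V)} (p : V → Prop) (hA : ∀ e ∈ A, p e.1 ∧ p e.2)
    (hB : ∀ e ∈ B, ¬ p e.1 ∧ ¬ p e.2) : rk (A ∪ B) = rk A + rk B := by
  classical
  have h1 := Submodule.finrank_sup_add_finrank_inf_eq (Uc A) (Uc B)
  have h2 : Uc A ⊔ Uc B = ⊤ := by
    rw [eq_top_iff]
    intro f _
    refine Submodule.mem_sup.mpr ⟨fun v => if p v then 0 else f v, fun e he => ?_,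
      fun v => if p v then f v else 0, fun e he => ?_, ?_⟩
    · simp [hA e he]
    · simp [hB e he]
    · funext v; by_cases h : p v <;> simp [h]
  rw [h2, finrank_top, finrank_fintype_fun_eq_card] at h1
  have := cc_le A; have := cc_le B; have := cc_le (A ∪ B)
  rw [← Uc_union] at h1
  unfold rk cc at *
  omega

omit [DecidableEq V] in
lemma rk_empty : rk (∅ : Finset (V × V)) = 0 := by
  have : Uc (∅ : Finset (V × V)) = ⊤ := by ext f; simp [mem_Uc]
  rw [rk, cc, this, finrank_top, finrank_fintype_fun_eq_card, Nat.sub_self]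

lemma cc_prod {S : Finset V} (hS : S.Nonempty) : cc (S ×ˢ S) + S.card = Fintype.card V + 1 := by
  obtain ⟨s, hs⟩ := hS
  have h1 := card_const (ZMod 2) (S ×ˢ S)
  let e : {σ : V → ZMod 2 // ∀ e ∈ S ×ˢ S, σ e.1 = σ e.2} ≃ ({v // v ∉ S.erase s} → ZMod 2) :=
    { toFun := fun σ v => σ.1 v
      invFun := fun g => ⟨fun v => if h : v ∉ S.erase s then g ⟨v, h⟩ else g ⟨s, by simp⟩, by
        have : ∀ v ∈ S, (if h : v ∉ S.erase s then g ⟨v, h⟩ else g ⟨s, by simp⟩) =
            g ⟨s, by simp⟩ := by
          intro v hv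
          split_ifs with h
          · rfl
          · congr 1; ext; simpa [hv] using h
        intro e he
        rw [mem_product] at he
        exact (this _ he.1).trans (this _ he.2).symm⟩
      left_inv := fun σ => by
        ext v
        simp only
        split_ifs with h
        · exact σ.2 (s, v) (mem_product.mpr ⟨hs, mem_of_mem_erase h⟩)
        · rfl
      right_inv := fun g => by
        funext v
        simp only
        rw [dif_pos v.2] }
  rw [← Fintype.card_subtype, Fintype.card_congr e, Fintype.card_fun, ZMod.card,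
    Fintype.card_subtype_compl, Fintype.card_coe, card_erase_of_mem hs] at h1
  have h2 := Nat.pow_right_injective le_rfl h1
  have := card_le_univ S
  have := card_pos.mpr ⟨s, hs⟩
  omega

lemma rk_ge {A : Finset (V × V)} {S : Finset V} (h : ∀ f ∈ Uc A, ∀ a ∈ S, ∀ b ∈ S, f a = f b) :
    S.card - 1 ≤ rk A := by
  rcases S.eq_empty_or_nonempty with rfl | hS
  · simp
  have h1 : cc A ≤ cc (S ×ˢ S) := Submodule.finrank_mono fun f hf e he =>
    h f hf _ (mem_product.mp he).1 _ (mem_product.mp he).2
  have := cc_prod hS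
  rw [rk]; omega

lemma rk_le {A : Finset (V × V)} {S : Finset V} (hS : S.Nonempty) (h : A ⊆ S ×ˢ S) :
    rk A ≤ S.card - 1 := by
  have h1 : cc (S ×ˢ S) ≤ cc A := Submodule.finrank_mono fun f hf e he => hf e (h he)
  have := cc_prod hS
  rw [rk]; omega

lemma rk_single (e : V × V) : rk {e} ≤ 1 := by
  have := rk_le (A := {e}) (S := {e.1, e.2}) (by simp) (by simp)
  have h2 : ({e.1, e.2} : Finset V).card ≤ 2 := card_le_two
  omega

lemma rk_le_card (A : Finset (V × V)) : rk A ≤ A.card := by
  induction A using Finset.induction_on with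
  | empty => simp [rk_empty]
  | insert e A he ih =>
    have := rk_union_le {e} A
    have := rk_single e
    rw [card_insert_of_notMem he, insert_eq]; omega

lemma rk_pos {A : Finset (V × V)} {e : V × V} (he : e ∈ A) (hne : e.1 ≠ e.2) : 0 < rk A := by
  have := rk_ge (A := A) (S := {e.1, e.2}) fun f hf a ha b hb => by
    have := hf e he
    simp only [mem_insert, mem_singleton] at ha hb
    rcases ha with rfl | rfl <;> rcases hb with rfl | rfl <;> simp [this]
  rw [card_pair hne] at this
  omega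

/-- number of proper colourings -/
def Np (F : Finset (V × V)) (x : ℕ) : ℕ :=
  (univ.filter fun σ : V → Fin x => ∀ e ∈ F, σ e.1 ≠ σ e.2).card

/-- normalised chromatic polynomial -/
noncomputable def Zp (F : Finset (V × V)) : Polynomial ℚ :=
  ∑ A ∈ F.powerset, (-1) ^ A.card * Polynomial.X ^ rk A

lemma whitney (F : Finset (V × V)) (x : ℕ) :
    (Np F x : ℚ) = ∑ A ∈ F.powerset, (-1) ^ A.card * (x : ℚ) ^ cc A := by
  have h1 : ∀ σ : V → Fin x, (if ∀ e ∈ F, σ e.1 ≠ σ e.2 then (1 : ℚ) else 0) =
      ∑ A ∈ F.powerset, (-1) ^ A.card * (if ∀ e ∈ A, σ e.1 = σ e.2 then 1 else 0) := fun σ => by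
    have h2 := Finset.prod_add (fun e : V × V => -(if σ e.1 = σ e.2 then (1 : ℚ) else 0))
      (fun _ => 1) F
    have h0 : ∀ (p : V × V → Prop) [DecidablePred p] (A : Finset (V × V)),
        (if ∀ e ∈ A, p e then (1 : ℚ) else 0) = ∏ e ∈ A, if p e then 1 else 0 := by
      intro p _ A
      convert (Finset.prod_boole (M₀ := ℚ) (p := p) (s := A)).symm
    rw [h0]
    refine (Finset.prod_congr rfl fun e _ => ?_).trans (h2.trans (Finset.sum_congr rfl fun A _ => ?_))
    · by_cases h : σ e.1 = σ e.2 <;> simp [h]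
    · rw [prod_const_one, mul_one, Finset.prod_neg, h0]
  rw [Np, card_filter, Nat.cast_sum]
  simp only [Nat.cast_ite, Nat.cast_one, Nat.cast_zero, h1]
  rw [Finset.sum_comm]
  refine Finset.sum_congr rfl fun A _ => ?_
  have h3 := card_const (Fin x) A
  rw [Fintype.card_fin] at h3
  rw [← Finset.mul_sum, Finset.sum_boole, h3, Nat.cast_pow]

lemma Np_eq (F : Finset (V × V)) {x : ℕ} (hx : 0 < x) :
    (Np F x : ℚ) = x ^ Fintype.card V * (Zp F).eval (1 / x : ℚ) := by
  rw [whitney, Zp, Polynomial.eval_finsetSum, Finset.mul_sum]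
  refine Finset.sum_congr rfl fun A _ => ?_
  have h1 : Fintype.card V = cc A + rk A := by have := cc_le A; rw [rk]; omega
  have hx' : (x : ℚ) ≠ 0 := by exact_mod_cast hx.ne'
  simp only [Polynomial.eval_mul, Polynomial.eval_pow, Polynomial.eval_neg, Polynomial.eval_one,
    Polynomial.eval_X, h1, pow_add, one_div, inv_pow]
  field_simp

lemma poly_ext {p q : Polynomial ℚ} (h : ∀ x : ℕ, 0 < x → p.eval (1 / x : ℚ) = q.eval (1 / x : ℚ)) :
    p = q := by
  refine Polynomial.eq_of_infinite_eval_eq p q (Set.infinite_of_injective_forall_mem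
    (f := fun x : ℕ => (1 / ((x + 1 : ℕ) : ℚ))) (fun a b hab => ?_) fun x => h (x + 1) (by omega))
  simpa using hab

lemma Zp_congr {F F' : Finset (V × V)} (h : ∀ x, Np F x = Np F' x) : Zp F = Zp F' := by
  refine poly_ext fun x hx => ?_
  have h1 := Np_eq F hx
  rw [h, Np_eq F' hx] at h1
  exact (mul_left_cancel₀ (by positivity) h1).symm

lemma Zp_coeff_zero {F : Finset (V × V)} (hF : ∀ e ∈ F, e.1 ≠ e.2) : (Zp F).coeff 0 = 1 := by
  rw [Zp, Polynomial.finsetSum_coeff, Finset.sum_eq_single ∅]
  · simp [rk_empty]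
  · intro A hA hne
    obtain ⟨e, he⟩ := nonempty_iff_ne_empty.mpr hne
    have := rk_pos he (hF e (mem_powerset.mp hA he))
    simp [Polynomial.coeff_zero_eq_eval_zero, this.ne']
  · simp

lemma Zp_transfer {W : Type} [Fintype W] [DecidableEq W] {F : Finset (V × V)} {F' : Finset (W × W)}
    (hF : ∀ e ∈ F, e.1 ≠ e.2) (hF' : ∀ e ∈ F', e.1 ≠ e.2) (h : ∀ x, Np F x = Np F' x) :
    Fintype.card V = Fintype.card W ∧ Zp F = Zp F' := by
  have key : ∀ {V W : Type} [Fintype V] [DecidableEq V] [Fintype W] [DecidableEq W]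
      {F : Finset (V × V)} {F' : Finset (W × W)}, (∀ x, Np F x = Np F' x) → ∀ d,
      Fintype.card W = Fintype.card V + d → Zp F * Polynomial.X ^ d = Zp F' := by
    intro V W _ _ _ _ F F' h d hd
    refine poly_ext fun x hx => ?_
    have h1 := Np_eq F hx
    rw [h, Np_eq F' hx, hd, pow_add, mul_assoc] at h1
    have h2 := mul_left_cancel₀ (by positivity) h1
    have hx' : (x : ℚ) ≠ 0 := by exact_mod_cast hx.ne'
    simp only [Polynomial.eval_mul, Polynomial.eval_pow, Polynomial.eval_X, ← h2]
    rw [mul_right_comm, ← mul_pow, mul_one_div_cancel hx', one_pow, one_mul]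
  have h1 : Fintype.card V = Fintype.card W := by
    rcases lt_trichotomy (Fintype.card V) (Fintype.card W) with h1 | h1 | h1
    · obtain ⟨d, hd⟩ := Nat.exists_eq_add_of_lt h1
      have := congrArg (Polynomial.coeff · 0) (key h (d + 1) hd)
      simp [Zp_coeff_zero hF'] at this
    · exact h1
    · obtain ⟨d, hd⟩ := Nat.exists_eq_add_of_lt h1
      have := congrArg (Polynomial.coeff · 0) (key (fun x => (h x).symm) (d + 1) hd)
      simp [Zp_coeff_zero hF] at this
  exact ⟨h1, by simpa using key h 0 h1.symm⟩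

lemma Zp_union {A B : Finset (V × V)} (p : V → Prop) (hA : ∀ e ∈ A, p e.1 ∧ p e.2)
    (hB : ∀ e ∈ B, ¬ p e.1 ∧ ¬ p e.2) : Zp (A ∪ B) = Zp A * Zp B := by
  have hd : Disjoint A B := disjoint_left.mpr fun e h1 h2 => (hB e h2).1 (hA e h1).1
  rw [Zp, Zp, Zp, Finset.sum_mul_sum, ← Finset.sum_product']
  symm
  refine Finset.sum_nbij' (fun q => q.1 ∪ q.2) (fun C => (C ∩ A, C ∩ B)) ?_ ?_ ?_ ?_ ?_
  · intro q hq
    simp only [mem_product, mem_powerset] at hq ⊢
    exact union_subset_union hq.1 hq.2
  · intro C _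
    simp [mem_product, mem_powerset]
  · intro q hq
    simp only [mem_product, mem_powerset] at hq
    have h1 := disjoint_left.mp hd
    ext e <;> simp only [mem_inter, mem_union]
    · exact ⟨fun h => h.1.elim id fun h' => absurd (hq.2 h') (h1 h.2), fun h => ⟨Or.inl h, hq.1 h⟩⟩
    · exact ⟨fun h => h.1.elim (fun h' => absurd h.2 (h1 (hq.1 h'))) id,
        fun h => ⟨Or.inr h, hq.2 h⟩⟩
  · intro C hC
    rw [← inter_union_distrib_left, inter_eq_left.mpr (mem_powerset.mp hC)]
  · intro q hq
    simp only [mem_product, mem_powerset] at hq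
    rw [card_union_of_disjoint (hd.mono hq.1 hq.2), rk_union_eq p (fun e he => hA e (hq.1 he))
      (fun e he => hB e (hq.2 he))]
    ring

/-- signed count of connected spanning extensions -/
noncomputable def Tc (F D : Finset (V × V)) : ℤ :=
  ∑ A ∈ D.powerset, (-1) ^ A.card * (if cc (F ∪ A) = 1 then 1 else 0)

lemma cc_insert (F : Finset (V × V)) (e : V × V) :
    (Uc F ≤ Uc {e} ∧ ∀ A, cc (insert e F ∪ A) = cc (F ∪ A)) ∨
      (¬ Uc F ≤ Uc {e} ∧ cc (insert e F) + 1 = cc F) := by
  by_cases h : Uc F ≤ Uc {e}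
  · refine Or.inl ⟨h, fun A => ?_⟩
    rw [cc, cc, insert_eq, Uc_union, Uc_union, Uc_union, inf_eq_right.mpr h]
  · refine Or.inr ⟨h, ?_⟩
    have h1 : cc (insert e F) < cc F := by
      refine Submodule.finrank_lt_finrank_of_lt (lt_of_le_of_ne ?_ fun h2 => h ?_)
      · rw [insert_eq, Uc_union]; exact inf_le_right
      · rw [← h2, insert_eq, Uc_union]; exact inf_le_left
    have h2 := rk_union_le {e} F
    have h3 := rk_single e
    have := cc_le F
    rw [← insert_eq] at h2
    simp only [rk] at h2 h3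
    omega

lemma Tc_sign (D : Finset (V × V)) : ∀ F : Finset (V × V), 0 ≤ (-1) ^ (cc F + 1) * Tc F D ∧
    (cc (F ∪ D) = 1 → (∀ e ∈ D, ¬ Uc F ≤ Uc {e}) → 0 < (-1) ^ (cc F + 1) * Tc F D) := by
  induction D using Finset.induction_on with
  | empty =>
    intro F
    simp only [Tc, powerset_empty, sum_singleton, card_empty, pow_zero, union_empty, one_mul]
    split_ifs with h <;> simp [h]
  | insert e D he ih =>
    intro F
    have h1 : Tc F (insert e D) = Tc F D - Tc (insert e F) D := by
      rw [Tc, Finset.sum_powerset_insert he, Tc, Tc, sub_eq_add_neg, ← Finset.sum_neg_distrib]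
      congr 1
      refine Finset.sum_congr rfl fun A hA => ?_
      rw [card_insert_of_notMem fun h => he (mem_powerset.mp hA h), union_insert, insert_union]
      ring
    rcases cc_insert F e with ⟨h2, h3⟩ | ⟨h2, h3⟩
    · have : Tc (insert e F) D = Tc F D := by simp only [Tc, h3]
      rw [h1, this, sub_self, mul_zero]
      exact ⟨le_rfl, fun _ h => absurd h2 (h e (mem_insert_self _ _))⟩
    · obtain ⟨h4, h5⟩ := ih F
      obtain ⟨h6, h7⟩ := ih (insert e F)
      have h8 : (-1 : ℤ) ^ (cc F + 1) * Tc F (insert e D) = (-1) ^ (cc F + 1) * Tc F D +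
          (-1) ^ (cc (insert e F) + 1) * Tc (insert e F) D := by rw [h1, ← h3]; ring
      rw [h8]
      refine ⟨add_nonneg h4 h6, fun h9 h10 => ?_⟩
      by_cases h11 : cc (F ∪ D) = 1
      · exact add_pos_of_pos_of_nonneg (h5 h11 fun e' he' => h10 e' (mem_insert_of_mem he')) h6
      · refine add_pos_of_nonneg_of_pos h4 (h7 (by rwa [insert_union, ← union_insert])
          fun e' he' h12 => h11 ?_)
        rcases cc_insert F e' with ⟨h13, _⟩ | ⟨_, h14⟩
        · exact absurd h13 (h10 e' (mem_insert_of_mem he'))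
        · have h15 : Uc (insert e F) = Uc (insert e' F) := by
            refine Submodule.eq_of_le_of_finrank_eq ?_ (show cc _ = cc _ by omega)
            rw [insert_eq e', Uc_union]
            refine le_inf h12 ?_
            rw [insert_eq, Uc_union]; exact inf_le_right
          rw [← h9, union_insert, ← insert_union, cc, cc, Uc_union (insert e F), h15, ← Uc_union,
            insert_union, ← union_insert, insert_eq_of_mem he']

lemma Zp_coeff_top (F : Finset (V × V)) (hV : 0 < Fintype.card V) :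
    (Zp F).coeff (Fintype.card V - 1) = Tc ∅ F := by
  rw [Zp, Polynomial.finsetSum_coeff, Tc, Int.cast_sum]
  refine Finset.sum_congr rfl fun A _ => ?_
  have h1 : (-1 : Polynomial ℚ) ^ A.card = Polynomial.C ((-1) ^ A.card) := by simp
  have := cc_le A
  rw [h1, Polynomial.coeff_C_mul, Polynomial.coeff_X_pow, empty_union]
  have h2 : 0 < cc A := by
    have := rk_le (A := A) (S := univ) (univ_nonempty_iff.mpr (Fintype.card_pos_iff.mp hV))
      (by simp)
    rw [rk, card_univ] at this; omega
  have h3 : Fintype.card V - 1 = rk A ↔ cc A = 1 := by rw [rk]; omega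
  simp [h3]

lemma cc_eq_one_iff {F : Finset (V × V)} (hF : ∀ e ∈ F, e.1 ≠ e.2) (hV : 0 < Fintype.card V) :
    cc F = 1 ↔ (Zp F).coeff (Fintype.card V - 1) ≠ 0 := by
  rw [Zp_coeff_top F hV]
  constructor
  · intro h
    have := (Tc_sign F ∅).2 (by simpa using h) fun e he h2 => by
      have := h2 (x := fun v => if v = e.1 then 1 else 0) (by simp [mem_Uc]) e (by simp)
      simp [(hF e he).symm] at this
    intro h0
    rw [Int.cast_eq_zero] at h0
    simp [h0] at this
  · intro h
    by_contra h1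
    apply h
    rw [Int.cast_eq_zero, Tc]
    refine Finset.sum_eq_zero fun A hA => ?_
    rw [if_neg, mul_zero]
    intro h2
    have h3 : cc F ≤ cc (∅ ∪ A) := Submodule.finrank_mono fun f hf e he =>
      hf e (mem_powerset.mp hA (by simpa using he))
    have := rk_le (A := F) (S := univ) (univ_nonempty_iff.mpr (Fintype.card_pos_iff.mp hV))
      (by simp)
    have := cc_le F
    rw [rk, card_univ] at *; omega

end Pool.Agent.Lib.MP_8cb124_co
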